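/-
MP_33c730_lc (helper20): modules and prime graphs. Definitions only.
-/
import Pool.Agent.Lib.MP_33c730_lc.Ws.SpDefs

set_option autoImplicit false

namespace Pool.MP_33c730_lc.Md

variable {V : Type}

/-- `M` is a module of `G`: every vertex outside of `M` is adjacent to all or to no vertices
of `M`. -/
def Mod (G : SimpleGraph V) (M : Set V) : Prop :=
  ∀ x ∈ M, ∀ y ∈ M, ∀ z, z ∉ M → (G.Adj z x ↔ G.Adj z y)

/-- `G` is prime: its modules are the sets with at most one element and the set of all vertices. -/
def Prime (G : SimpleGraph V) : Prop :=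
  ∀ M : Set V, Mod G M → M.Subsingleton ∨ M = Set.univ

/-- Every prime induced subgraph of `G` with at least four vertices arises by a flip (`k` classes)
from a graph without `K_{t,t}`. -/
def PrimeFlip (k t : ℕ) (G : SimpleGraph V) : Prop :=
  ∀ A : Set V, 4 ≤ A.ncard → Prime (G.induce A) → Ws.FlipKtt k t (G.induce A)

/-- `G` has no induced path with four vertices (`G` is a cograph). -/
def P4Free (G : SimpleGraph V) : Prop :=
  ∀ a b c d, G.Adj a b → G.Adj b c → G.Adj c d → G.Adj a c ∨ G.Adj b d ∨ G.Adj a d

end Pool.MP_33c730_lc.Md
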