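/-
MP_33c730_lc (helper20): graphs without an induced path on four vertices have no prime induced
subgraph with at least four vertices.
-/
import Pool.Agent.Lib.MP_33c730_lc.Ws.WBase
import Pool.Agent.Lib.MP_33c730_lc.Md.MDefs

set_option autoImplicit false

namespace Pool.MP_33c730_lc.Md

open Ws

variable {V : Type} {G : SimpleGraph V}

/-- `X` splits into two parts with a constant adjacency between them. -/
def Spl (G : SimpleGraph V) (X : Set V) : Prop :=
  ∃ D : Set V, D ⊆ X ∧ D.Nonempty ∧ (∃ a, a ∈ X ∧ a ∉ D) ∧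
    ((∀ a b, a ∈ D → b ∈ X → b ∉ D → ¬ G.Adj a b) ∨ (∀ a b, a ∈ D → b ∈ X → b ∉ D → G.Adj a b))

theorem spl_compl {X : Set V} (h : Spl Gᶜ X) : Spl G X := by
  obtain ⟨D, h1, h2, h3, h4⟩ := h
  have hne : ∀ a b : V, a ∈ D → b ∉ D → a ≠ b := by
    rintro a b ha hb rfl
    exact hb ha
  refine ⟨D, h1, h2, h3, ?_⟩
  rcases h4 with h4 | h4
  · right
    intro a b ha hb hb'
    by_contra h5
    exact h4 a b ha hb hb' ((G.compl_adj a b).2 ⟨hne a b ha hb', h5⟩)
  · left
    intro a b ha hb hb' h5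
    exact ((G.compl_adj a b).1 (h4 a b ha hb hb')).2 h5

theorem p4_compl (h : P4Free G) : P4Free Gᶜ := by
  intro a b c d h1 h2 h3
  by_contra hcon
  push Not at hcon
  obtain ⟨h4, h5, h6⟩ := hcon
  rw [SimpleGraph.compl_adj] at h1 h2 h3
  have hac : a ≠ c := by
    rintro rfl
    exact h6 ((G.compl_adj a d).2 h3)
  have hbd : b ≠ d := by
    rintro rfl
    exact h6 ((G.compl_adj a b).2 h1)
  have had : a ≠ d := by
    rintro rfl
    exact h4 ((G.compl_adj a c).2 ⟨hac, fun h => h3.2 h.symm⟩)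
  have e1 : G.Adj a c := by
    by_contra h7
    exact h4 ((G.compl_adj a c).2 ⟨hac, h7⟩)
  have e2 : G.Adj b d := by
    by_contra h7
    exact h5 ((G.compl_adj b d).2 ⟨hbd, h7⟩)
  have e3 : G.Adj a d := by
    by_contra h7
    exact h6 ((G.compl_adj a d).2 ⟨had, h7⟩)
  -- the path c - a - d - b
  rcases h c a d b e1.symm e3 e2.symm with h7 | h7 | h7
  · exact h3.2 h7
  · exact h1.2 h7
  · exact h2.2 h7.symm

theorem spl_step (h : P4Free G) {v : V} {X D : Set V} (hv : v ∉ X) (hDX : D ⊆ X)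
    (hD : D.Nonempty) (hD' : ∃ a, a ∈ X ∧ a ∉ D)
    (hn : ∀ a b, a ∈ D → b ∈ X → b ∉ D → ¬ G.Adj a b) : Spl G (insert v X) := by
  by_cases h1 : ∃ x ∈ X, ∀ y ∈ cm G X x, ¬ G.Adj v y
  · obtain ⟨x, hx, hxy⟩ := h1
    have hK : cm G X x ⊆ X := cm_sub hx
    refine ⟨cm G X x, hK.trans (Set.subset_insert _ _), ⟨x, cm_self⟩,
      ⟨v, Set.mem_insert _ _, fun h2 => hv (hK h2)⟩, Or.inl ?_⟩
    intro a b ha hb hb' hab
    rcases hb with rfl | hb
    · exact hxy a ha hab.symm
    · exact hb' (cm_step ha hb hab)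
  · push Not at h1
    by_cases h2 : ∀ y ∈ X, G.Adj v y
    · refine ⟨{v}, Set.singleton_subset_iff.2 (Set.mem_insert _ _), Set.singleton_nonempty v,
        ?_, Or.inr ?_⟩
      · obtain ⟨a, ha, -⟩ := hD'
        refine ⟨a, Set.mem_insert_of_mem _ ha, ?_⟩
        intro h3
        rw [Set.mem_singleton_iff.1 h3] at ha
        exact hv ha
      · intro a b ha hb hb'
        rw [Set.mem_singleton_iff.1 ha]
        rcases hb with hb | hb
        · exact absurd hb hb'
        · exact h2 b hb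
    · push Not at h2
      obtain ⟨y, hy, hvy⟩ := h2
      have hKX : cm G X y ⊆ X := cm_sub hy
      -- an edge in the component from a neighbour to a non-neighbour
      have h3 : ∃ p q, p ∈ cm G X y ∧ q ∈ cm G X y ∧ G.Adj p q ∧ G.Adj v p ∧ ¬ G.Adj v q := by
        by_contra h4
        push Not at h4
        obtain ⟨z, hz, hvz⟩ := h1 y hy
        have h5 := hz {w | w ∈ cm G X y ∧ ¬ G.Adj v w} ⟨cm_self, hvy⟩ (by
          rintro u w ⟨hu, hu'⟩ hw huw
          refine ⟨cm_step hu hw huw, fun hvw => ?_⟩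
          exact hu' (h4 w u (cm_step hu hw huw) hu huw.symm hvw))
        exact h5.2 hvz
      obtain ⟨p, q, hp, hq, hpq, hvp, hvq⟩ := h3
      -- a neighbour of v in another component
      have h4 : ∃ z0, z0 ∈ X ∧ z0 ∉ cm G X y := by
        by_cases hyD : y ∈ D
        · obtain ⟨c, hc, hc'⟩ := hD'
          refine ⟨c, hc, fun h5 => hc' ?_⟩
          refine h5 D hyD ?_
          intro u w hu hw huw
          by_contra hwD
          exact hn u w hu hw hwD huw
        · obtain ⟨c, hc⟩ := hD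
          refine ⟨c, hDX hc, fun h5 => ?_⟩
          refine (h5 {w | w ∈ X ∧ w ∉ D} ⟨hy, hyD⟩ ?_).2 hc
          rintro u w ⟨hu, hu'⟩ hw huw
          exact ⟨hw, fun hwD => hn w u hwD hu hu' huw.symm⟩
      obtain ⟨z0, hz0, hz0'⟩ := h4
      obtain ⟨z, hz, hvz⟩ := h1 z0 hz0
      have hzX : z ∈ X := cm_sub hz0 hz
      have hzK : z ∉ cm G X y := by
        intro h5
        have h6 := cm_symm hy h5
        exact hz0' (cm_symm hz0 (cm_trans hz h6))
      rcases h q p v z hpq.symm hvp.symm hvz with h5 | h5 | h5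
      · exact absurd h5.symm hvq
      · exact absurd (cm_step hp hzX h5) hzK
      · exact absurd (cm_step hq hzX h5) hzK

theorem spl_all [Finite V] (h : P4Free G) :
    ∀ (n : ℕ) (X : Set V), X.ncard = n + 2 → Spl G X := by
  intro n
  induction n with
  | zero =>
    intro X hX
    obtain ⟨a, b, hab, rfl⟩ := Set.ncard_eq_two.1 hX
    refine ⟨{a}, by simp, Set.singleton_nonempty a, ⟨b, by simp, fun h1 => hab
      (Set.mem_singleton_iff.1 h1).symm⟩, ?_⟩
    have key : ∀ c, c ∈ ({a, b} : Set V) → c ∉ ({a} : Set V) → c = b := by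
      intro c hc hc'
      rcases hc with hc | hc
      · exact absurd hc hc'
      · exact hc
    by_cases h1 : G.Adj a b
    · right
      intro c d hc hd hd'
      rw [Set.mem_singleton_iff.1 hc, key d hd hd']
      exact h1
    · left
      intro c d hc hd hd'
      rw [Set.mem_singleton_iff.1 hc, key d hd hd']
      exact h1
  | succ n ih =>
    intro X hX
    obtain ⟨v, hv⟩ : X.Nonempty := by
      rw [← Set.ncard_pos (Set.toFinite X)]
      omega
    have h1 : (X \ {v}).ncard = n + 2 := by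
      rw [Set.ncard_sdiff_singleton_of_mem hv, hX]
      omega
    have h2 : insert v (X \ {v}) = X := by
      rw [Set.insert_sdiff_singleton, Set.insert_eq_of_mem hv]
    have h3 : v ∉ X \ {v} := fun h4 => h4.2 rfl
    obtain ⟨D, h4, h5, h6, h7⟩ := ih (X \ {v}) h1
    rw [← h2]
    rcases h7 with h7 | h7
    · exact spl_step h h3 h4 h5 h6 h7
    · exact spl_compl (spl_step (p4_compl h) h3 h4 h5 h6
        (fun a b ha hb hb' h8 => ((G.compl_adj a b).1 h8).2 (h7 a b ha hb hb')))

theorem not_prime_cograph [Finite V] (h : P4Free G) (hc : 3 ≤ (Set.univ : Set V).ncard) :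
    ¬ Prime G := by
  intro hP
  obtain ⟨n, hn⟩ : ∃ n, (Set.univ : Set V).ncard = n + 2 := ⟨_, by
    rw [← Nat.sub_add_cancel (show 2 ≤ (Set.univ : Set V).ncard by omega)]⟩
  obtain ⟨D, -, hD, ⟨a, -, ha⟩, h1⟩ := spl_all h n Set.univ hn
  have hm1 : Mod G D := by
    intro x hx y hy z hz
    rcases h1 with h1 | h1
    · exact iff_of_false (fun h2 => h1 x z hx (Set.mem_univ _) hz h2.symm)
        (fun h2 => h1 y z hy (Set.mem_univ _) hz h2.symm)
    · exact iff_of_true (h1 x z hx (Set.mem_univ _) hz).symm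
        (h1 y z hy (Set.mem_univ _) hz).symm
  have hm2 : Mod G Dᶜ := by
    intro x hx y hy z hz
    have hz' : z ∈ D := by
      by_contra h2
      exact hz h2
    rcases h1 with h1 | h1
    · exact iff_of_false (h1 z x hz' (Set.mem_univ _) hx) (h1 z y hz' (Set.mem_univ _) hy)
    · exact iff_of_true (h1 z x hz' (Set.mem_univ _) hx) (h1 z y hz' (Set.mem_univ _) hy)
  have h2 : D.ncard ≤ 1 := by
    rcases hP D hm1 with h2 | h2
    · exact (Set.ncard_le_one_iff (Set.toFinite _)).2 (fun h3 h4 => h2 h3 h4)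
    · exact absurd (h2 ▸ Set.mem_univ a) ha
  have h3 : Dᶜ.ncard ≤ 1 := by
    rcases hP Dᶜ hm2 with h3 | h3
    · exact (Set.ncard_le_one_iff (Set.toFinite _)).2 (fun h4 h5 => h3 h4 h5)
    · obtain ⟨b, hb⟩ := hD
      have h4 : b ∈ Dᶜ := h3 ▸ Set.mem_univ b
      exact absurd hb h4
  have h4 : (Set.univ : Set V) = D ∪ Dᶜ := (Set.union_compl_self D).symm
  have h5 := Set.ncard_union_le D Dᶜ
  rw [← h4] at h5
  omega

theorem primeFlip_cograph [Finite V] (k t : ℕ) (h : P4Free G) : PrimeFlip k t G := by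
  intro A hA hP
  exfalso
  have h1 : P4Free (G.induce A) := fun a b c d h1 h2 h3 => h a.1 b.1 c.1 d.1 h1 h2 h3
  refine not_prime_cograph h1 ?_ hP
  rw [Set.ncard_univ, Nat.card_coe_set_eq]
  omega

end Pool.MP_33c730_lc.Md
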