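/-
MP_33c730_lc (helper20): laminar families, labels of their sets. Fourth part.
-/
import Mathlib

set_option autoImplicit false

namespace Pool.MP_33c730_lc.Md

variable {V : Type}

/-- A laminar family of nonempty sets which contains `univ` and the singletons. -/
structure Lam (N : Set V → Prop) : Prop where
  ne : ∀ x, N x → x.Nonempty
  un : N Set.univ
  sg : ∀ v, N {v}
  lm : ∀ x y, N x → N y → (x ∩ y).Nonempty → x ⊆ y ∨ y ⊆ x

/-- `y` is a child of `x`. -/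
def ch (N : Set V → Prop) (y x : Set V) : Prop :=
  N y ∧ N x ∧ y ⊂ x ∧ ∀ z, N z → y ⊂ z → x ⊆ z

/-- depth -/
noncomputable def dp (N : Set V → Prop) (y : Set V) : ℕ := {z | N z ∧ y ⊂ z}.ncard

section
variable {N : Set V → Prop}

theorem ch_unique_par {y x x' : Set V} (h : ch N y x) (h' : ch N y x') : x = x' :=
  Set.Subset.antisymm (h.2.2.2 x' h'.2.1 h'.2.2.1) (h'.2.2.2 x h.2.1 h.2.2.1)

variable [Finite V]

theorem exists_par (hN : Lam N) {y : Set V} (hy : N y) (h : y ≠ Set.univ) : ∃ x, ch N y x := by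
  classical
  have h1 : ∃ n, ∃ x, N x ∧ y ⊂ x ∧ x.ncard = n :=
    ⟨_, Set.univ, hN.un, (Set.ssubset_univ_iff.2 h), rfl⟩
  obtain ⟨x, hx, hyx, hc⟩ := Nat.find_spec h1
  refine ⟨x, hy, hx, hyx, ?_⟩
  intro z hz hyz
  obtain ⟨a, ha⟩ := hN.ne y hy
  rcases hN.lm x z hx hz ⟨a, hyx.1 ha, hyz.1 ha⟩ with h2 | h2
  · exact h2
  · by_contra h3
    have h4 : z ⊂ x := ⟨h2, h3⟩
    have h5 : z.ncard < x.ncard := Set.ncard_lt_ncard h4 (Set.toFinite _)
    exact Nat.find_min h1 (by omega) ⟨z, hz, hyz, rfl⟩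

theorem exists_ch (hN : Lam N) {x : Set V} (hx : N x) {a : V} (ha : a ∈ x) (h : x ≠ {a}) :
    ∃ y, ch N y x ∧ a ∈ y := by
  classical
  have h0 : ({a} : Set V) ⊂ x := by
    refine ⟨Set.singleton_subset_iff.2 ha, fun h1 => h ?_⟩
    exact Set.Subset.antisymm h1 (Set.singleton_subset_iff.2 ha)
  have h1 : {y | N y ∧ y ⊂ x ∧ a ∈ y}.Nonempty := ⟨{a}, hN.sg a, h0, rfl⟩
  obtain ⟨y, ⟨hy, hyx, hay⟩, hmax⟩ :=
    Set.exists_max_image {y | N y ∧ y ⊂ x ∧ a ∈ y} Set.ncard (Set.toFinite _) h1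
  refine ⟨y, ⟨hy, hx, hyx, ?_⟩, hay⟩
  intro z hz hyz
  rcases hN.lm x z hx hz ⟨a, ha, hyz.1 hay⟩ with h2 | h2
  · exact h2
  · by_contra h3
    have h4 : z ⊂ x := ⟨h2, h3⟩
    have h5 := hmax z ⟨hz, h4, hyz.1 hay⟩
    have h6 : y.ncard < z.ncard := Set.ncard_lt_ncard hyz (Set.toFinite _)
    omega

theorem ch_unique (hN : Lam N) {y y' x : Set V} (h : ch N y x) (h' : ch N y' x)
    (hi : (y ∩ y').Nonempty) : y = y' := by
  rcases hN.lm y y' h.1 h'.1 hi with h1 | h1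
  · by_contra h2
    have h3 : y ⊂ y' := lt_of_le_of_ne h1 h2
    exact h'.2.2.1.2 (h.2.2.2 y' h'.1 h3)
  · by_contra h2
    have h3 : y' ⊂ y := lt_of_le_of_ne h1 (fun h3 => h2 h3.symm)
    exact h.2.2.1.2 (h'.2.2.2 y h.1 h3)

theorem ch_unique_mem (hN : Lam N) {y y' x : Set V} (h : ch N y x) (h' : ch N y' x) {a : V}
    (ha : a ∈ y) (ha' : a ∈ y') : y = y' := ch_unique hN h h' ⟨a, ha, ha'⟩

theorem ch_cover (hN : Lam N) {w x : Set V} (hw : N w) (hx : N x) (h : w ⊂ x) :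
    ∃ y, ch N y x ∧ w ⊆ y := by
  obtain ⟨a, ha⟩ := hN.ne w hw
  have h1 : x ≠ {a} := by
    rintro rfl
    exact h.2 (Set.singleton_subset_iff.2 ha)
  obtain ⟨y, hy, hay⟩ := exists_ch hN hx (h.1 ha) h1
  refine ⟨y, hy, ?_⟩
  rcases hN.lm w y hw hy.1 ⟨a, ha, hay⟩ with h2 | h2
  · exact h2
  · by_contra h3
    exact h.2 (hy.2.2.2 w hw ⟨h2, h3⟩)

theorem two_ch (hN : Lam N) {x : Set V} (hx : N x) (h : x.Nontrivial) (a : V) (ha : a ∈ x) :
    ∃ y z, ch N y x ∧ ch N z x ∧ a ∈ y ∧ z ≠ y := by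
  have h1 : ∀ b, x ≠ {b} := by
    rintro b rfl
    exact Set.not_nontrivial_singleton h
  obtain ⟨y, hy, hay⟩ := exists_ch hN hx ha (h1 a)
  obtain ⟨b, hb, hby⟩ := Set.exists_of_ssubset hy.2.2.1
  obtain ⟨z, hz, hbz⟩ := exists_ch hN hx hb (h1 b)
  refine ⟨y, z, hy, hz, hay, ?_⟩
  rintro rfl
  exact hby hbz

theorem ch_nontrivial (hN : Lam N) {x y : Set V} (h : ch N y x) : x.Nontrivial := by
  obtain ⟨a, ha⟩ := hN.ne y h.1
  obtain ⟨b, hb, hb'⟩ := Set.exists_of_ssubset h.2.2.1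
  refine ⟨a, h.2.2.1.1 ha, b, hb, ?_⟩
  rintro rfl
  exact hb' ha

theorem dp_ch (hN : Lam N) {x y : Set V} (h : ch N y x) : dp N y = dp N x + 1 := by
  have h1 : {z | N z ∧ y ⊂ z} = insert x {z | N z ∧ x ⊂ z} := by
    ext z
    simp only [Set.mem_ofPred_eq, Set.mem_insert_iff]
    constructor
    · rintro ⟨h2, h3⟩
      rcases (h.2.2.2 z h2 h3).eq_or_ssubset with h4 | h4
      · exact Or.inl h4.symm
      · exact Or.inr ⟨h2, h4⟩
    · rintro (rfl | ⟨h2, h3⟩)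
      · exact ⟨h.2.1, h.2.2.1⟩
      · exact ⟨h2, h.2.2.1.trans h3⟩
  unfold dp
  rw [h1, Set.ncard_insert_of_notMem _ (Set.toFinite _)]
  rintro ⟨_, h2⟩
  exact h2.2 (Set.Subset.refl _)

/-- Existence of labels: the labels of the children are the label of the parent plus one (for the
distinguished child) or plus two (otherwise). -/
theorem exists_lab (hN : Lam N) (f : Set V → Set V) :
    ∃ l : Set V → ZMod 3, ∀ y x, ch N y x →
      (y = f x → l y = l x + 1) ∧ (y ≠ f x → l y = l x + 2) := by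
  classical
  have := Fintype.ofFinite (Set V)
  let w : Set V → ZMod 3 := fun z => if ∃ x, ch N z x ∧ z = f x then 1 else 2
  refine ⟨fun y => ∑ z ∈ Finset.univ.filter (fun z => N z ∧ y ⊆ z ∧ z ≠ Set.univ), w z, ?_⟩
  intro y x h
  have h1 : Finset.univ.filter (fun z => N z ∧ y ⊆ z ∧ z ≠ Set.univ) =
      insert y (Finset.univ.filter (fun z => N z ∧ x ⊆ z ∧ z ≠ Set.univ)) := by
    ext z
    simp only [Finset.mem_filter, Finset.mem_univ, true_and, Finset.mem_insert]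
    constructor
    · rintro ⟨h2, h3, h4⟩
      rcases h3.eq_or_ssubset with h5 | h5
      · exact Or.inl h5.symm
      · exact Or.inr ⟨h2, h.2.2.2 z h2 h5, h4⟩
    · rintro (rfl | ⟨h2, h3, h4⟩)
      · refine ⟨h.1, Set.Subset.refl _, ?_⟩
        rintro rfl
        exact h.2.2.1.2 (Set.subset_univ _)
      · exact ⟨h2, h.2.2.1.1.trans h3, h4⟩
  have h2 : y ∉ Finset.univ.filter (fun z => N z ∧ x ⊆ z ∧ z ≠ Set.univ) := by
    simp only [Finset.mem_filter, Finset.mem_univ, true_and]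
    rintro ⟨-, h3, -⟩
    exact h.2.2.1.2 h3
  have h3 : (∃ x', ch N y x' ∧ y = f x') ↔ y = f x := by
    constructor
    · rintro ⟨x', h4, h5⟩
      rw [ch_unique_par h h4]
      exact h5
    · intro h4
      exact ⟨x, h, h4⟩
  dsimp only
  rw [h1, Finset.sum_insert h2]
  constructor
  · intro h4
    have h5 : w y = 1 := if_pos (h3.2 h4)
    rw [h5, add_comm]
  · intro h4
    have h5 : w y = 2 := if_neg (fun h6 => h4 (h3.1 h6))
    rw [h5, add_comm]
end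

end Pool.MP_33c730_lc.Md
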