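/-
MP_33c730_lc (helper20): the and/or evaluation recovers the labels of a laminar family.
-/
import Pool.Agent.Lib.MP_33c730_lc.Md.Lam

set_option autoImplicit false

namespace Pool.MP_33c730_lc.Md

variable {V : Type}

/-- And/or evaluation: the sets in `E` are conjunctions of their children, the others are
disjunctions; `S` is the set of the leaves which are true. -/
def val (N E : Set V → Prop) (S x : Set V) : Prop :=
  ∃ W : Set V, W ⊆ x ∧ W ⊆ S ∧ W.Nonempty ∧
    ∀ y z, ch N z y → y ⊆ x → E y → (y ∩ W).Nonempty → (z ∩ W).Nonempty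

/-- a labelling with distinguished children -/
structure Lab (N : Set V → Prop) (f : Set V → Set V) (l : Set V → ZMod 3) : Prop where
  fch : ∀ x, N x → x.Nontrivial → ch N (f x) x
  one : ∀ x, N x → x.Nontrivial → l (f x) = l x + 1
  two : ∀ y x, ch N y x → y ≠ f x → l y = l x + 2

/-- the desired values -/
def des (N : Set V → Prop) (l : Set V → ZMod 3) (j : ZMod 3) (y : Set V) : Prop :=
  (Even (dp N y) ∧ l y = j) ∨ (¬ Even (dp N y) ∧ l y ≠ j)

section
variable [Finite V] {N : Set V → Prop} {f : Set V → Set V} {l : Set V → ZMod 3}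

theorem z3a : ∀ a : ZMod 3, a + 1 ≠ a := by decide
theorem z3b : ∀ a : ZMod 3, a + 2 ≠ a := by decide
theorem z3c : ∀ a j : ZMod 3, a + 1 ≠ j → a + 2 ≠ j → a = j := by decide
theorem z3d : ∀ a j : ZMod 3, a ≠ j → a + 1 = j ∨ a + 2 = j := by decide

theorem Lab.cases (hL : Lab N f l) {y x : Set V} (hN : Lam N) (h : ch N y x) :
    l y = l x + 1 ∨ l y = l x + 2 := by
  by_cases h1 : y = f x
  · left
    rw [h1]
    exact hL.one x h.2.1 (ch_nontrivial hN h)
  · exact Or.inr (hL.two y x h h1)

theorem Lab.first_iff (hL : Lab N f l) {y x : Set V} (hN : Lam N) (h : ch N y x) :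
    l y = l x + 1 ↔ y = f x := by
  constructor
  · intro h1
    by_contra h2
    have h3 := hL.two y x h h2
    rw [h1] at h3
    have h4 : (1 : ZMod 3) = 2 := add_left_cancel h3
    exact absurd h4 (by decide)
  · intro h1
    rw [h1]
    exact hL.one x h.2.1 (ch_nontrivial hN h)

theorem even_ch (hN : Lam N) {y x : Set V} (h : ch N y x) :
    Even (dp N y) ↔ ¬ Even (dp N x) := by
  rw [dp_ch hN h, Nat.even_add_one]

theorem des_and (hN : Lam N) (hL : Lab N f l) {x : Set V} (hx : N x) (hn : x.Nontrivial)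
    (he : Even (dp N x)) (j : ZMod 3) : des N l j x ↔ ∀ z, ch N z x → des N l j z := by
  have h0 : ∀ z, ch N z x → (des N l j z ↔ l z ≠ j) := by
    intro z hz
    have h1 : ¬ Even (dp N z) := fun h => (even_ch hN hz).1 h he
    unfold des
    tauto
  have h1 : des N l j x ↔ l x = j := by
    unfold des
    tauto
  rw [h1]
  constructor
  · intro h2 z hz
    rw [h0 z hz]
    rcases hL.cases hN hz with h3 | h3
    · rw [h3, h2]
      exact z3a j
    · rw [h3, h2]
      exact z3b j
  · intro h2
    have h3 := (h0 _ (hL.fch x hx hn)).1 (h2 _ (hL.fch x hx hn))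
    rw [hL.one x hx hn] at h3
    obtain ⟨a, ha⟩ := hN.ne _ (hL.fch x hx hn).1
    obtain ⟨y, z, hy, hz, hay, hzy⟩ := two_ch hN hx hn a ((hL.fch x hx hn).2.2.1.1 ha)
    have h4 : y = f x := ch_unique_mem hN hy (hL.fch x hx hn) hay ha
    have h5 : z ≠ f x := by rwa [← h4]
    have h6 := (h0 z hz).1 (h2 z hz)
    rw [hL.two z x hz h5] at h6
    exact z3c _ _ h3 h6

theorem des_or (hN : Lam N) (hL : Lab N f l) {x : Set V} (hx : N x) (hn : x.Nontrivial)
    (he : ¬ Even (dp N x)) (j : ZMod 3) : des N l j x ↔ ∃ z, ch N z x ∧ des N l j z := by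
  have h0 : ∀ z, ch N z x → (des N l j z ↔ l z = j) := by
    intro z hz
    have h1 : Even (dp N z) := (even_ch hN hz).2 he
    unfold des
    tauto
  have h1 : des N l j x ↔ l x ≠ j := by
    unfold des
    tauto
  rw [h1]
  constructor
  · intro h2
    obtain ⟨a, ha⟩ := hN.ne _ (hL.fch x hx hn).1
    obtain ⟨y, z, hy, hz, hay, hzy⟩ := two_ch hN hx hn a ((hL.fch x hx hn).2.2.1.1 ha)
    have h4 : y = f x := ch_unique_mem hN hy (hL.fch x hx hn) hay ha
    have h5 : z ≠ f x := by rwa [← h4]
    have h6 : l x + 1 = j ∨ l x + 2 = j := z3d _ _ h2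
    rcases h6 with h6 | h6
    · exact ⟨f x, hL.fch x hx hn, (h0 _ (hL.fch x hx hn)).2 (by rw [hL.one x hx hn, h6])⟩
    · exact ⟨z, hz, (h0 _ hz).2 (by rw [hL.two z x hz h5, h6])⟩
  · rintro ⟨z, hz, h2⟩
    rw [h0 z hz] at h2
    rcases hL.cases hN hz with h3 | h3
    · rintro rfl
      exact z3a _ (h3.symm.trans h2)
    · rintro rfl
      exact z3b _ (h3.symm.trans h2)

theorem nontrivial_or {x : Set V} (h : x.Nonempty) : x.Nontrivial ∨ ∃ v, x = {v} := by
  rcases Set.subsingleton_or_nontrivial x with h1 | h1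
  · obtain ⟨v, hv⟩ := h
    exact Or.inr ⟨v, Set.Subset.antisymm (fun w hw => h1 hw hv) (Set.singleton_subset_iff.2 hv)⟩
  · exact Or.inl h1

/-- the evaluation gives the desired values. -/
theorem val_iff (hN : Lam N) (hL : Lab N f l) (E : Set V → Prop)
    (hE : ∀ y, N y → (E y ↔ Even (dp N y))) (j : ZMod 3) :
    ∀ (n : ℕ) (x : Set V), x.ncard ≤ n → N x →
      (val N E {v | des N l j {v}} x ↔ des N l j x) := by
  intro n
  induction n with
  | zero =>
    intro x hx hNx
    have h1 : x = ∅ := (Set.ncard_eq_zero (Set.toFinite _)).1 (by omega)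
    exact absurd (hN.ne x hNx) (by rw [h1]; exact Set.not_nonempty_empty)
  | succ n ih =>
    intro x hxn hx
    rcases nontrivial_or (hN.ne x hx) with hn | ⟨v, rfl⟩
    · have hlt : ∀ z, ch N z x → z.ncard ≤ n := by
        intro z hz
        have h1 : z.ncard < x.ncard := Set.ncard_lt_ncard hz.2.2.1 (Set.toFinite _)
        omega
      -- restriction of a witness to a child
      have hres : ∀ (W : Set V), W ⊆ {v | des N l j {v}} →
          (∀ y z, ch N z y → y ⊆ x → E y → (y ∩ W).Nonempty → (z ∩ W).Nonempty) →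
          ∀ z, ch N z x → (z ∩ W).Nonempty → val N E {v | des N l j {v}} z := by
        intro W hWS hW z hz hzW
        refine ⟨z ∩ W, Set.inter_subset_left, Set.inter_subset_right.trans hWS, hzW, ?_⟩
        intro y w hw hyz hEy hy
        have h1 : y ∩ W ⊆ y ∩ (z ∩ W) := fun a ha => ⟨ha.1, hyz ha.1, ha.2⟩
        have h2 := hW y w hw (hyz.trans hz.2.2.1.1) hEy (hy.mono (fun a ha => ⟨ha.1, ha.2.2⟩))
        exact h2.mono (fun a ha => ⟨ha.1, hyz (hw.2.2.1.1 ha.1), ha.2⟩)
      by_cases he : Even (dp N x)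
      · rw [des_and hN hL hx hn he]
        constructor
        · rintro ⟨W, hWx, hWS, hWn, hW⟩ z hz
          rw [← ih z (hlt z hz) hz.1]
          refine hres W hWS hW z hz (hW x z hz (Set.Subset.refl _) ((hE x hx).2 he) ?_)
          obtain ⟨a, ha⟩ := hWn
          exact ⟨a, hWx ha, ha⟩
        · intro h
          have h1 : ∀ z, ch N z x → val N E {v | des N l j {v}} z :=
            fun z hz => (ih z (hlt z hz) hz.1).2 (h z hz)
          choose! W hW1 hW2 hW3 hW4 using h1
          refine ⟨{a | ∃ z, ch N z x ∧ a ∈ W z}, ?_, ?_, ?_, ?_⟩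
          · rintro a ⟨z, hz, ha⟩
            exact hz.2.2.1.1 (hW1 z hz ha)
          · rintro a ⟨z, hz, ha⟩
            exact hW2 z hz ha
          · obtain ⟨a, ha⟩ := hW3 _ (hL.fch x hx hn)
            exact ⟨a, _, hL.fch x hx hn, ha⟩
          · rintro y z hz hyx hEy ⟨a, hay, z', hz', ha⟩
            rcases hyx.eq_or_ssubset with h2 | h2
            · rw [h2] at hz
              obtain ⟨b, hb⟩ := hW3 z hz
              exact ⟨b, hW1 z hz hb, z, hz, hb⟩
            · have h3 : y ⊆ z' := by
                obtain ⟨z'', hz'', hy''⟩ := ch_cover hN hz.2.1 hx h2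
                have h4 : z'' = z' := ch_unique_mem hN hz'' hz' (hy'' hay) (hW1 z' hz' ha)
                rwa [h4] at hy''
              obtain ⟨b, hb1, hb2⟩ := hW4 z' hz' y z hz h3 hEy ⟨a, hay, ha⟩
              exact ⟨b, hb1, z', hz', hb2⟩
      · rw [des_or hN hL hx hn he]
        constructor
        · rintro ⟨W, hWx, hWS, ⟨a, ha⟩, hW⟩
          obtain ⟨z, hz, haz⟩ := exists_ch hN hx (hWx ha) (by
            rintro rfl
            exact Set.not_nontrivial_singleton hn)
          refine ⟨z, hz, ?_⟩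
          rw [← ih z (hlt z hz) hz.1]
          exact hres W hWS hW z hz ⟨a, haz, ha⟩
        · rintro ⟨z, hz, h⟩
          rw [← ih z (hlt z hz) hz.1] at h
          obtain ⟨W, hW1, hW2, hW3, hW4⟩ := h
          refine ⟨W, hW1.trans hz.2.2.1.1, hW2, hW3, ?_⟩
          rintro y z' hz' hyx hEy ⟨a, hay, ha⟩
          rcases hyx.eq_or_ssubset with h2 | h2
          · rw [h2] at hEy
            exact absurd ((hE x hx).1 hEy) he
          · obtain ⟨z'', hz'', hy''⟩ := ch_cover hN hz'.2.1 hx h2
            have h4 : z'' = z := ch_unique_mem hN hz'' hz (hy'' hay) (hW1 ha)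
            rw [h4] at hy''
            exact hW4 y z' hz' hy'' hEy ⟨a, hay, ha⟩
    · constructor
      · rintro ⟨W, hWx, hWS, ⟨a, ha⟩, hW⟩
        have h1 : a = v := hWx ha
        rw [← h1]
        exact hWS ha
      · intro h
        refine ⟨{v}, Set.Subset.refl _, Set.singleton_subset_iff.2 h, Set.singleton_nonempty v, ?_⟩
        intro y z hz hy _ _
        have h1 : y = {v} := by
          obtain ⟨a, ha⟩ := hN.ne y hz.2.1
          have h2 : a = v := hy ha
          exact Set.Subset.antisymm hy (Set.singleton_subset_iff.2 (h2 ▸ ha))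
        have h2 := ch_nontrivial hN hz
        rw [h1] at h2
        exact absurd h2 Set.not_nontrivial_singleton
end

end Pool.MP_33c730_lc.Md
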