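/-
MP_33c730_lc (helper20): the parity of the depth in a laminar family, and the representatives.
-/
import Pool.Agent.Lib.MP_33c730_lc.Md.Val

set_option autoImplicit false

namespace Pool.MP_33c730_lc.Md

variable {V : Type}

/-- The depth of `y` is even: a set `Z` marks the levels above `y` alternatingly. -/
def evq (N : Set V → Prop) (y : Set V) : Prop :=
  ∃ Z : Set V,
    (∀ x z, (∀ a, a ∈ x) → ch N z x → y ⊆ z → ∃ a, a ∈ x ∧ a ∉ z ∧ a ∈ Z) ∧
    (∀ x z w, ch N z x → ch N w z → y ⊆ w →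
      ((∃ a, a ∈ x ∧ a ∉ z ∧ a ∈ Z) ↔ ¬ ∃ a, a ∈ z ∧ a ∉ w ∧ a ∈ Z)) ∧
    (∀ x, ch N y x → ¬ ∃ a, a ∈ x ∧ a ∉ y ∧ a ∈ Z)

section
variable [Finite V] {N : Set V → Prop}

theorem dp_univ : dp N Set.univ = 0 := by
  unfold dp
  have h1 : {z | N z ∧ Set.univ ⊂ z} = ∅ := by
    ext z
    simp only [Set.mem_ofPred_eq, Set.mem_empty_iff_false, iff_false]
    rintro ⟨-, h⟩
    exact h.2 (Set.subset_univ _)
  rw [h1, Set.ncard_empty]

theorem evq_iff (hN : Lam N) {y : Set V} (hy : N y) : evq N y ↔ Even (dp N y) := by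
  constructor
  · rintro ⟨Z, h1, h2, h3⟩
    have key : ∀ (n : ℕ) (x z : Set V), dp N x ≤ n → ch N z x → y ⊆ z →
        ((∃ a, a ∈ x ∧ a ∉ z ∧ a ∈ Z) ↔ Even (dp N x)) := by
      intro n
      induction n with
      | zero =>
        intro x z hx hz hyz
        have h4 : x = Set.univ := by
          by_contra h5
          obtain ⟨x', hx'⟩ := exists_par hN hz.2.1 h5
          rw [dp_ch hN hx'] at hx
          omega
        subst h4
        rw [dp_univ]
        exact ⟨fun _ => Even.zero, fun _ => h1 _ z (fun a => Set.mem_univ a) hz hyz⟩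
      | succ n ih =>
        intro x z hx hz hyz
        by_cases h4 : x = Set.univ
        · subst h4
          rw [dp_univ]
          exact ⟨fun _ => Even.zero, fun _ => h1 _ z (fun a => Set.mem_univ a) hz hyz⟩
        · obtain ⟨x', hx'⟩ := exists_par hN hz.2.1 h4
          have h5 := dp_ch hN hx'
          have h6 := ih x' x (by omega) hx' (hyz.trans hz.2.2.1.1)
          have h7 := h2 x' x z hx' hz hyz
          rw [h6] at h7
          rw [h5, Nat.even_add_one, h7, not_not]
    by_cases h4 : y = Set.univ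
    · rw [h4, dp_univ]
      exact Even.zero
    · obtain ⟨x, hx⟩ := exists_par hN hy h4
      rw [even_ch hN hx, ← key _ x y le_rfl hx (Set.Subset.refl _)]
      exact h3 x hx
  · intro he
    have hyn := hN.ne y hy
    have key : ∀ x z, ch N z x → y ⊆ z →
        ((∃ a, a ∈ x ∧ a ∉ z ∧ ∃ x' z', ch N z' x' ∧ y ⊆ z' ∧ Even (dp N x') ∧ a ∈ x' ∧ a ∉ z') ↔
          Even (dp N x)) := by
      intro x z hz hyz
      constructor
      · rintro ⟨a, hax, haz, x', z', hz', hyz', he', hax', haz'⟩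
        have h1 : x = x' := by
          obtain ⟨b, hb⟩ := hyn
          have hbx : b ∈ x := hz.2.2.1.1 (hyz hb)
          have hbx' : b ∈ x' := hz'.2.2.1.1 (hyz' hb)
          by_contra hne
          rcases hN.lm x x' hz.2.1 hz'.2.1 ⟨b, hbx, hbx'⟩ with h2 | h2
          · obtain ⟨w, hw, hxw⟩ := ch_cover hN hz.2.1 hz'.2.1 (lt_of_le_of_ne h2 hne)
            have h3 : w = z' := ch_unique_mem hN hw hz' (hxw hbx) (hyz' hb)
            exact haz' (h3 ▸ hxw hax)
          · obtain ⟨w, hw, hxw⟩ := ch_cover hN hz'.2.1 hz.2.1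
              (lt_of_le_of_ne h2 (fun h => hne h.symm))
            have h3 : w = z := ch_unique_mem hN hw hz (hxw hbx') (hyz hb)
            exact haz (h3 ▸ hxw hax')
        rw [h1]
        exact he'
      · intro he'
        obtain ⟨a, ha, ha'⟩ := Set.exists_of_ssubset hz.2.2.1
        exact ⟨a, ha, ha', x, z, hz, hyz, he', ha, ha'⟩
    refine ⟨{a | ∃ x' z', ch N z' x' ∧ y ⊆ z' ∧ Even (dp N x') ∧ a ∈ x' ∧ a ∉ z'}, ?_, ?_, ?_⟩
    · intro x z hx hz hyz
      have h1 : x = Set.univ := Set.eq_univ_of_forall hx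
      subst h1
      exact (key _ z hz hyz).2 (by rw [dp_univ]; exact Even.zero)
    · intro x z w hz hw hyw
      have h1 := key x z hz (hyw.trans hw.2.2.1.1)
      have h2 := key z w hw hyw
      have h3 := even_ch hN hz
      simp only [Set.mem_ofPred_eq]
      rw [h1, h2, h3, not_not]
    · intro x hx
      have h1 := key x y hx (Set.Subset.refl _)
      simp only [Set.mem_ofPred_eq]
      rw [h1]
      exact (even_ch hN hx).1 he

/-! ### labels by formulas -/

/-- the label of `x` is `j`, according to the sets `S` -/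
def lbq (N : Set V → Prop) (S : ZMod 3 → Set V) (j : ZMod 3) (x : Set V) : Prop :=
  (evq N x ∧ val N (evq N) (S j) x) ∨ (¬ evq N x ∧ ¬ val N (evq N) (S j) x)

/-- `y` is the distinguished child of `x`, according to the sets `S` -/
def dcq (N : Set V → Prop) (S : ZMod 3 → Set V) (y x : Set V) : Prop :=
  ch N y x ∧ ∃ j, lbq N S j x ∧ lbq N S (j + 1) y

/-- the sets coding the labels -/
def cod (N : Set V → Prop) (l : Set V → ZMod 3) (j : ZMod 3) : Set V := {v | des N l j {v}}

variable {f : Set V → Set V} {l : Set V → ZMod 3}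

theorem lbq_iff (hN : Lam N) (hL : Lab N f l) {x : Set V} (hx : N x) (j : ZMod 3) :
    lbq N (cod N l) j x ↔ l x = j := by
  have h1 := val_iff hN hL (evq N) (fun y hy => evq_iff hN hy) j _ x le_rfl hx
  have h2 := evq_iff hN hx
  unfold lbq
  rw [h2]
  unfold cod
  rw [h1]
  unfold des
  tauto

theorem dcq_iff (hN : Lam N) (hL : Lab N f l) {x y : Set V} :
    dcq N (cod N l) y x ↔ ch N y x ∧ y = f x := by
  constructor
  · rintro ⟨h1, j, h2, h3⟩
    refine ⟨h1, ?_⟩
    rw [lbq_iff hN hL h1.2.1] at h2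
    rw [lbq_iff hN hL h1.1] at h3
    exact (hL.first_iff hN h1).1 (by rw [h2, h3])
  · rintro ⟨h1, h2⟩
    refine ⟨h1, l x, ?_, ?_⟩
    · rw [lbq_iff hN hL h1.2.1]
    · rw [lbq_iff hN hL h1.1]
      exact (hL.first_iff hN h1).2 h2

/-! ### representatives -/

/-- all sets between `{v}` and `z` (without `z`) are distinguished children -/
def dsc (N : Set V → Prop) (F : Set V → Set V → Prop) (z : Set V) (v : V) : Prop :=
  v ∈ z ∧ ∀ w x, ch N w x → v ∈ w → x ⊆ z → F w x

theorem dsc_exists (hN : Lam N) (hf : ∀ x, N x → x.Nontrivial → ch N (f x) x) :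
    ∀ (n : ℕ) (z : Set V), z.ncard ≤ n → N z → ∃ v, dsc N (fun w x => w = f x) z v := by
  intro n
  induction n with
  | zero =>
    intro z hz hNz
    have h1 : z = ∅ := (Set.ncard_eq_zero (Set.toFinite _)).1 (by omega)
    exact absurd (hN.ne z hNz) (by rw [h1]; exact Set.not_nonempty_empty)
  | succ n ih =>
    intro z hz hNz
    rcases nontrivial_or (hN.ne z hNz) with hn | ⟨v, rfl⟩
    · have h1 := hf z hNz hn
      have h2 : (f z).ncard < z.ncard := Set.ncard_lt_ncard h1.2.2.1 (Set.toFinite _)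
      obtain ⟨v, hv, hv'⟩ := ih (f z) (by omega) h1.1
      refine ⟨v, h1.2.2.1.1 hv, ?_⟩
      intro w x hw hvw hxz
      rcases hxz.eq_or_ssubset with h3 | h3
      · rw [h3] at hw ⊢
        exact ch_unique_mem hN hw h1 hvw hv
      · obtain ⟨z', hz', hxz'⟩ := ch_cover hN hw.2.1 hNz h3
        have h4 : z' = f z := ch_unique_mem hN hz' h1 (hxz' (hw.2.2.1.1 hvw)) hv
        rw [h4] at hxz'
        exact hv' w x hw hvw hxz'
    · refine ⟨v, rfl, ?_⟩
      intro w x hw hvw hxz
      have h1 := ch_nontrivial hN hw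
      exact absurd (h1.mono hxz) Set.not_nontrivial_singleton

theorem dsc_unique (hN : Lam N) :
    ∀ (n : ℕ) (z : Set V), z.ncard ≤ n → N z → ∀ v v', dsc N (fun w x => w = f x) z v →
      dsc N (fun w x => w = f x) z v' → v = v' := by
  intro n
  induction n with
  | zero =>
    intro z hz hNz
    have h1 : z = ∅ := (Set.ncard_eq_zero (Set.toFinite _)).1 (by omega)
    exact absurd (hN.ne z hNz) (by rw [h1]; exact Set.not_nonempty_empty)
  | succ n ih =>
    intro z hz hNz v v' hv hv'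
    rcases nontrivial_or (hN.ne z hNz) with hn | ⟨u, rfl⟩
    · have hne : ∀ a, z ≠ {a} := by
        rintro a rfl
        exact Set.not_nontrivial_singleton hn
      obtain ⟨w, hw, hvw⟩ := exists_ch hN hNz hv.1 (hne v)
      obtain ⟨w', hw', hvw'⟩ := exists_ch hN hNz hv'.1 (hne v')
      have h1 : w = f z := hv.2 w z hw hvw (Set.Subset.refl _)
      have h2 : w' = f z := hv'.2 w' z hw' hvw' (Set.Subset.refl _)
      have h3 : w' = w := by rw [h1, h2]
      rw [h3] at hvw'
      have h4 : w.ncard < z.ncard := Set.ncard_lt_ncard hw.2.2.1 (Set.toFinite _)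
      refine ih w (by omega) hw.1 v v' ⟨hvw, ?_⟩ ⟨hvw', ?_⟩
      · intro u x hu hvu hxw
        exact hv.2 u x hu hvu (hxw.trans hw.2.2.1.1)
      · intro u x hu hvu hxw
        exact hv'.2 u x hu hvu (hxw.trans hw.2.2.1.1)
    · have h1 : v = u := hv.1
      have h2 : v' = u := hv'.1
      rw [h1, h2]

/-- `v` represents `x` -/
def rp (N : Set V → Prop) (F G : Set V → Set V → Prop) (x : Set V) (v : V) : Prop :=
  ∃ z, G z x ∧ ch N z x ∧ dsc N F z v

theorem rp_exists (hN : Lam N) {g : Set V → Set V}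
    (hf : ∀ x, N x → x.Nontrivial → ch N (f x) x)
    (hg : ∀ x, N x → x.Nontrivial → ch N (g x) x) {x : Set V} (hx : N x) (hn : x.Nontrivial) :
    ∃ v, rp N (fun w x => w = f x) (fun w x => w = g x) x v := by
  obtain ⟨v, hv⟩ := dsc_exists hN hf _ (g x) le_rfl (hg x hx hn).1
  exact ⟨v, g x, rfl, hg x hx hn, hv⟩

theorem rp_unique (hN : Lam N) {g : Set V → Set V} {x : Set V} {v v' : V}
    (h : rp N (fun w x => w = f x) (fun w x => w = g x) x v)
    (h' : rp N (fun w x => w = f x) (fun w x => w = g x) x v') : v = v' := by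
  obtain ⟨z, hz, hzx, hv⟩ := h
  obtain ⟨z', hz', hzx', hv'⟩ := h'
  have h1 : z' = z := by rw [hz, hz']
  subst h1
  exact dsc_unique hN _ _ le_rfl hzx.1 v v' hv hv'

theorem rp_inj (hN : Lam N) {g : Set V → Set V} (hfg : ∀ x, N x → x.Nontrivial → g x ≠ f x)
    {x x' : Set V} {v : V} (h : rp N (fun w x => w = f x) (fun w x => w = g x) x v)
    (h' : rp N (fun w x => w = f x) (fun w x => w = g x) x' v) : x = x' := by
  obtain ⟨z, hz, hzx, hv⟩ := h
  obtain ⟨z', hz', hzx', hv'⟩ := h'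
  have hvx : v ∈ x := hzx.2.2.1.1 hv.1
  have hvx' : v ∈ x' := hzx'.2.2.1.1 hv'.1
  by_contra hne
  rcases hN.lm x x' hzx.2.1 hzx'.2.1 ⟨v, hvx, hvx'⟩ with h1 | h1
  · obtain ⟨w, hw, hxw⟩ := ch_cover hN hzx.2.1 hzx'.2.1 (lt_of_le_of_ne h1 hne)
    have h2 : w = z' := ch_unique_mem hN hw hzx' (hxw hvx) hv'.1
    rw [h2] at hxw
    exact hfg x hzx.2.1 (ch_nontrivial hN hzx) (by rw [← hz]; exact hv'.2 z x hzx hv.1 hxw)
  · obtain ⟨w, hw, hxw⟩ := ch_cover hN hzx'.2.1 hzx.2.1 (lt_of_le_of_ne h1 (fun h => hne h.symm))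
    have h2 : w = z := ch_unique_mem hN hw hzx (hxw hvx') hv.1
    rw [h2] at hxw
    exact hfg x' hzx'.2.1 (ch_nontrivial hN hzx')
      (by rw [← hz']; exact hv.2 z' x' hzx' hv'.1 hxw)
end

end Pool.MP_33c730_lc.Md
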