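/-
MP_33c730_lc (helper20): strong modules and the modular decomposition.
-/
import Pool.Agent.Lib.MP_33c730_lc.Ws.WBase
import Pool.Agent.Lib.MP_33c730_lc.Md.Par
import Pool.Agent.Lib.MP_33c730_lc.Md.MDefs

set_option autoImplicit false

namespace Pool.MP_33c730_lc.Md

open Ws

variable {V : Type}

/-- nonempty strong modules -/
def Str (G : SimpleGraph V) (M : Set V) : Prop :=
  M.Nonempty ∧ Mod G M ∧ ∀ M', Mod G M' → (M ∩ M').Nonempty → M ⊆ M' ∨ M' ⊆ M

variable {G : SimpleGraph V}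

theorem lam_str [Nonempty V] (G : SimpleGraph V) : Lam (Str G) where
  ne _ h := h.1
  un := ⟨Set.univ_nonempty, fun _ _ _ _ _ hz => absurd (Set.mem_univ _) hz,
    fun _ _ _ => Or.inr (Set.subset_univ _)⟩
  sg v := by
    refine ⟨Set.singleton_nonempty v, ?_, ?_⟩
    · intro x hx y hy z _
      rw [Set.mem_singleton_iff.1 hx, Set.mem_singleton_iff.1 hy]
    · rintro M' _ ⟨a, ha, ha'⟩
      left
      have h1 : a = v := ha
      rw [← h1]
      exact Set.singleton_subset_iff.2 ha'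
  lm x y hx hy hi := hx.2.2 y hy.2.1 hi

theorem mod_union {M M' : Set V} (h : Mod G M) (h' : Mod G M') (hi : (M ∩ M').Nonempty) :
    Mod G (M ∪ M') := by
  obtain ⟨c, hc, hc'⟩ := hi
  have key : ∀ x ∈ M ∪ M', ∀ z, z ∉ M ∪ M' → (G.Adj z x ↔ G.Adj z c) := by
    rintro x (hx | hx) z hz
    · exact h x hx c hc z (fun h1 => hz (Or.inl h1))
    · exact h' x hx c hc' z (fun h1 => hz (Or.inr h1))
  intro x hx y hy z hz
  rw [key x hx z hz, key y hy z hz]

theorem mod_pair {M M' : Set V} (h : Mod G M) (h' : Mod G M')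
    (hd : ∀ a, a ∈ M → a ∉ M') {a a' b b' : V} (ha : a ∈ M) (ha' : a' ∈ M) (hb : b ∈ M')
    (hb' : b' ∈ M') : G.Adj a b ↔ G.Adj a' b' := by
  have h1 : b ∉ M := fun h2 => hd b h2 hb
  have h2 : a' ∉ M' := hd a' ha'
  rw [G.adj_comm a b, h a ha a' ha' b h1, G.adj_comm b a', h' b hb b' hb' a' h2]

/-- the first case: `G[x]` is not connected -/
theorem case_one [Finite V] [Nonempty V] {x D : Set V} (hx : Str G x) (hDx : D ⊆ x)
    (hD : D.Nonempty)
    (hD' : ∃ a, a ∈ x ∧ a ∉ D) (hn : ∀ a b, a ∈ D → b ∈ x → b ∉ D → ¬ G.Adj a b) {y z : Set V}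
    (hy : ch (Str G) y x) (hz : ch (Str G) z x) (hyz : y ≠ z) {a b : V} (ha : a ∈ y)
    (hb : b ∈ z) : ¬ G.Adj a b := by
  intro hab
  have hN := lam_str G
  have hax : a ∈ x := hy.2.2.1.1 ha
  have hbx : b ∈ x := hz.2.2.1.1 hb
  have hdis : ∀ u, u ∈ y → u ∉ z := fun u h1 h2 => hyz (ch_unique_mem hN hy hz h1 h2)
  set K := cm G x a with hK
  have hKx : K ⊆ x := cm_sub hax
  have hst : ∀ u w, u ∈ K → w ∈ x → G.Adj u w → w ∈ K := fun u w hu hw h => cm_step hu hw h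
  have hKne : ∃ c, c ∈ x ∧ c ∉ K := by
    by_cases haD : a ∈ D
    · obtain ⟨c, hc, hc'⟩ := hD'
      refine ⟨c, hc, fun h1 => hc' ?_⟩
      refine h1 D haD ?_
      intro u w hu hw huw
      by_contra hwD
      exact hn u w hu hw hwD huw
    · obtain ⟨c, hc⟩ := hD
      refine ⟨c, hDx hc, fun h1 => ?_⟩
      refine (h1 {w | w ∈ x ∧ w ∉ D} ⟨hax, haD⟩ ?_).2 hc
      rintro u w ⟨hu, hu'⟩ hw huw
      exact ⟨hw, fun hwD => hn w u hwD hu hu' huw.symm⟩
  have haK : a ∈ K := cm_self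
  have hbK : b ∈ K := hst a b haK hbx hab
  have hyK : y ⊆ K := by
    intro u hu
    have h1 : G.Adj u b := (mod_pair hy.1.2.1 hz.1.2.1 hdis hu ha hb hb).2 hab
    exact hst b u hbK (hy.2.2.1.1 hu) h1.symm
  have hKS : Str G K := by
    refine ⟨⟨a, haK⟩, ?_, ?_⟩
    · intro u hu v hv w hw
      by_cases hwx : w ∈ x
      · constructor
        · intro h1
          exact absurd (hst u w hu hwx h1.symm) hw
        · intro h1
          exact absurd (hst v w hv hwx h1.symm) hw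
      · exact hx.2.1 u (hKx hu) v (hKx hv) w hwx
    · intro M' hM' hi
      by_contra hcon
      push Not at hcon
      obtain ⟨h1, h2⟩ := hcon
      obtain ⟨d, hdK, hdM⟩ := hi
      rcases hx.2.2 M' hM' ⟨d, hKx hdK, hdM⟩ with h3 | h3
      · exact h1 (hKx.trans h3)
      · obtain ⟨c, hcM, hcK⟩ := Set.not_subset.1 h2
        obtain ⟨e, heK, heM⟩ := Set.not_subset.1 h1
        have h4 : ∃ u w, u ∈ K ∧ u ∈ M' ∧ w ∈ K ∧ w ∉ M' ∧ G.Adj u w := by
          by_contra h5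
          push Not at h5
          by_cases haM : a ∈ M'
          · refine heM (heK {u | u ∈ K ∧ u ∈ M'} ⟨haK, haM⟩ ?_).2
            rintro u w ⟨hu, hu'⟩ hw huw
            refine ⟨hst u w hu hw huw, ?_⟩
            by_contra hwM
            exact h5 u w hu hu' (hst u w hu hw huw) hwM huw
          · refine (hdK {u | u ∈ K ∧ u ∉ M'} ⟨haK, haM⟩ ?_).2 hdM
            rintro u w ⟨hu, hu'⟩ hw huw
            refine ⟨hst u w hu hw huw, ?_⟩
            intro hwM
            exact h5 w u (hst u w hu hw huw) hwM hu hu' huw.symm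
        obtain ⟨u, w, huK, huM, hwK, hwM, huw⟩ := h4
        have h5 : G.Adj w c := (hM' u huM c hcM w hwM).1 huw.symm
        exact hcK (hst w c hwK (h3 hcM) h5)
  obtain ⟨c, hcx, hcK⟩ := hKne
  have h1 : y ⊂ K := ⟨hyK, fun h2 => hdis b (h2 hbK) hb⟩
  exact hcK (hy.2.2.2 K hKS h1 hcx)

/-! ### complement -/

theorem mod_compl {M : Set V} : Mod Gᶜ M ↔ Mod G M := by
  unfold Mod
  refine forall₂_congr fun x hx => forall₂_congr fun y hy => forall₂_congr fun z hz => ?_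
  have h1 : z ≠ x := fun h => hz (h ▸ hx)
  have h2 : z ≠ y := fun h => hz (h ▸ hy)
  rw [SimpleGraph.compl_adj, SimpleGraph.compl_adj]
  tauto

theorem str_compl : Str Gᶜ = Str G := by
  funext M
  unfold Str
  simp only [mod_compl]

/-- the second case: the complement of `G[x]` is not connected -/
theorem case_two [Finite V] [Nonempty V] {x D : Set V} (hx : Str G x) (hDx : D ⊆ x)
    (hD : D.Nonempty)
    (hD' : ∃ a, a ∈ x ∧ a ∉ D) (hn : ∀ a b, a ∈ D → b ∈ x → b ∉ D → G.Adj a b) {y z : Set V}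
    (hy : ch (Str G) y x) (hz : ch (Str G) z x) (hyz : y ≠ z) {a b : V} (ha : a ∈ y)
    (hb : b ∈ z) : G.Adj a b := by
  rw [← str_compl] at hx hy hz
  have h1 := case_one hx hDx hD hD' (fun a b ha hb hb' h => h.2 (hn a b ha hb hb')) hy hz hyz
    ha hb
  rw [SimpleGraph.compl_adj] at h1
  by_contra h2
  refine h1 ⟨?_, h2⟩
  rintro rfl
  exact hyz (ch_unique_mem (lam_str _) hy hz ha hb)

/-- the third case: `G[x]` and its complement are connected -/
theorem case_three [Finite V] [Nonempty V] {x : Set V} (hx : Str G x)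
    (h1 : ¬ ∃ D : Set V, D ⊆ x ∧ D.Nonempty ∧ (∃ a, a ∈ x ∧ a ∉ D) ∧
      ∀ a b, a ∈ D → b ∈ x → b ∉ D → ¬ G.Adj a b)
    (h2 : ¬ ∃ D : Set V, D ⊆ x ∧ D.Nonempty ∧ (∃ a, a ∈ x ∧ a ∉ D) ∧
      ∀ a b, a ∈ D → b ∈ x → b ∉ D → G.Adj a b) {M : Set V} (hM : Mod G M)
    (hMn : M.Nonempty) (hMx : M ⊂ x) : ∃ y, ch (Str G) y x ∧ M ⊆ y := by
  classical
  have hN := lam_str G
  obtain ⟨M', ⟨hM', hMM', hM'x⟩, hmax⟩ :=
    Set.exists_max_image {M' | Mod G M' ∧ M ⊆ M' ∧ M' ⊂ x} Set.ncard (Set.toFinite _)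
      ⟨M, hM, Set.Subset.refl _, hMx⟩
  have hM'n : M'.Nonempty := hMn.mono hMM'
  have hS : Str G M' := by
    refine ⟨hM'n, hM', ?_⟩
    intro K hK hi
    by_contra hcon
    push Not at hcon
    obtain ⟨h3, h4⟩ := hcon
    obtain ⟨c, hcM, hcK⟩ := hi
    have hKx : K ⊆ x := by
      rcases hx.2.2 K hK ⟨c, hM'x.1 hcM, hcK⟩ with h5 | h5
      · exact absurd (hM'x.1.trans h5) h3
      · exact h5
    have hU : M' ∪ K = x := by
      by_contra h5
      have h6 : M' ∪ K ⊂ x := lt_of_le_of_ne (Set.union_subset hM'x.1 hKx) h5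
      have h7 := hmax (M' ∪ K) ⟨mod_union hM' hK ⟨c, hcM, hcK⟩,
        hMM'.trans Set.subset_union_left, h6⟩
      have h8 : M' ⊂ M' ∪ K := ⟨Set.subset_union_left, fun h9 =>
        h4 (Set.subset_union_right.trans h9)⟩
      have h9 : M'.ncard < (M' ∪ K).ncard := Set.ncard_lt_ncard h8 (Set.toFinite _)
      omega
    obtain ⟨b0, hb0M, hb0K⟩ := Set.not_subset.1 h3
    obtain ⟨a0, ha0K, ha0M⟩ := Set.not_subset.1 h4
    have key : ∀ a m, a ∈ x → a ∉ M' → m ∈ M' → (G.Adj a m ↔ G.Adj a0 b0) := by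
      intro a m ha haM hm
      have haK : a ∈ K := by
        rw [← hU] at ha
        rcases ha with h5 | h5
        · exact absurd h5 haM
        · exact h5
      rw [hM' m hm b0 hb0M a haM, G.adj_comm a b0, hK a haK a0 ha0K b0 hb0K, G.adj_comm b0 a0]
    by_cases he : G.Adj a0 b0
    · refine h2 ⟨M', hM'x.1, hM'n, ⟨a0, hKx ha0K, ha0M⟩, ?_⟩
      intro m a hm ha haM
      exact ((key a m ha haM hm).2 he).symm
    · refine h1 ⟨M', hM'x.1, hM'n, ⟨a0, hKx ha0K, ha0M⟩, ?_⟩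
      intro m a hm ha haM h5
      exact he ((key a m ha haM hm).1 h5.symm)
  obtain ⟨y, hy, hMy⟩ := ch_cover hN hS hx hM'x
  exact ⟨y, hy, hMM'.trans hMy⟩

/-- adjacency between sets -/
def adS (G : SimpleGraph V) (y z : Set V) : Prop := ∃ a ∈ y, ∃ b ∈ z, G.Adj a b

theorem adS_iff {y z : Set V} (hy : Mod G y) (hz : Mod G z) (hd : ∀ a, a ∈ y → a ∉ z) {a b : V}
    (ha : a ∈ y) (hb : b ∈ z) : adS G y z ↔ G.Adj a b := by
  constructor
  · rintro ⟨a', ha', b', hb', h⟩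
    exact (mod_pair hy hz hd ha' ha hb' hb).1 h
  · intro h
    exact ⟨a, ha, b, hb, h⟩

theorem adS_ch [Finite V] [Nonempty V] {x y z : Set V} (hy : ch (Str G) y x)
    (hz : ch (Str G) z x) (hyz : y ≠ z) {a b : V} (ha : a ∈ y) (hb : b ∈ z) :
    adS G y z ↔ G.Adj a b :=
  adS_iff hy.1.2.1 hz.1.2.1 (fun _ h1 h2 => hyz (ch_unique_mem (lam_str G) hy hz h1 h2)) ha hb

/-- the prime nodes -/
def Prm (G : SimpleGraph V) (x : Set V) : Prop :=
  ∀ M, Mod G M → M.Nonempty → M ⊂ x → ∃ y, ch (Str G) y x ∧ M ⊆ y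

theorem tri [Finite V] [Nonempty V] {x : Set V} (hx : Str G x) :
    (∀ y z, ch (Str G) y x → ch (Str G) z x → y ≠ z → ¬ adS G y z) ∨
    (∀ y z, ch (Str G) y x → ch (Str G) z x → y ≠ z → adS G y z) ∨ Prm G x := by
  by_cases h1 : ∃ D : Set V, D ⊆ x ∧ D.Nonempty ∧ (∃ a, a ∈ x ∧ a ∉ D) ∧
      ∀ a b, a ∈ D → b ∈ x → b ∉ D → ¬ G.Adj a b
  · obtain ⟨D, hDx, hD, hD', hn⟩ := h1
    left
    rintro y z hy hz hyz ⟨a, ha, b, hb, h⟩
    exact case_one hx hDx hD hD' hn hy hz hyz ha hb h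
  · by_cases h2 : ∃ D : Set V, D ⊆ x ∧ D.Nonempty ∧ (∃ a, a ∈ x ∧ a ∉ D) ∧
      ∀ a b, a ∈ D → b ∈ x → b ∉ D → G.Adj a b
    · obtain ⟨D, hDx, hD, hD', hn⟩ := h2
      right
      left
      intro y z hy hz hyz
      obtain ⟨a, ha⟩ := hy.1.1
      obtain ⟨b, hb⟩ := hz.1.1
      exact ⟨a, ha, b, hb, case_two hx hDx hD hD' hn hy hz hyz ha hb⟩
    · right
      right
      intro M hM hMn hMx
      exact case_three hx h1 h2 hM hMn hMx

/-- a graph on three vertices is not prime -/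
theorem not_prime_three {A : Set V} (hA : A.ncard = 3) : ¬ Prime (G.induce A) := by
  intro hP
  obtain ⟨a, b, c, hab, hac, hbc, rfl⟩ := Set.ncard_eq_three.1 hA
  have key : ∀ p q r : V, p ∈ ({a, b, c} : Set V) → q ∈ ({a, b, c} : Set V) →
      r ∈ ({a, b, c} : Set V) → (∀ u ∈ ({a, b, c} : Set V), u = p ∨ u = q ∨ u = r) →
      p ≠ q → p ≠ r → q ≠ r → ¬ (G.Adj p q ↔ G.Adj p r) := by
    intro p q r hp hq hr hall hpq hpr hqr h
    have h1 : Mod (G.induce {a, b, c}) {u | u.1 = q ∨ u.1 = r} := by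
      intro x hx y hy z hz
      have hz1 : z.1 = p := by
        rcases hall z.1 z.2 with h2 | h2 | h2
        · exact h2
        · exact absurd (Or.inl h2) hz
        · exact absurd (Or.inr h2) hz
      have hxa : ∀ w : ({a, b, c} : Set V), w ∈ ({u | u.1 = q ∨ u.1 = r} : Set _) →
          (G.Adj z.1 w.1 ↔ G.Adj p q) := by
        rintro w (h2 | h2)
        · rw [h2, hz1]
        · rw [h2, hz1]
          exact h.symm
      change G.Adj z.1 x.1 ↔ G.Adj z.1 y.1
      rw [hxa x hx, hxa y hy]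
    rcases hP _ h1 with h2 | h2
    · have h3 := h2 (show (⟨q, hq⟩ : ({a, b, c} : Set V)) ∈ _ from Or.inl rfl)
        (show (⟨r, hr⟩ : ({a, b, c} : Set V)) ∈ _ from Or.inr rfl)
      exact hqr (congrArg Subtype.val h3)
    · have h3 : (⟨p, hp⟩ : ({a, b, c} : Set V)) ∈ ({u | u.1 = q ∨ u.1 = r} : Set _) := by
        rw [h2]
        exact Set.mem_univ _
      rcases h3 with h3 | h3
      · exact hpq h3
      · exact hpr h3
  have ha : a ∈ ({a, b, c} : Set V) := by simp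
  have hb : b ∈ ({a, b, c} : Set V) := by simp
  have hc : c ∈ ({a, b, c} : Set V) := by simp
  have h1 := key a b c ha hb hc (by simp) hab hac hbc
  have h2 := key b a c hb ha hc (by
    intro u hu
    simp only [Set.mem_insert_iff, Set.mem_singleton_iff] at hu
    tauto) hab.symm hbc hac
  have h3 := key c a b hc ha hb (by
    intro u hu
    simp only [Set.mem_insert_iff, Set.mem_singleton_iff] at hu
    tauto) hac.symm hbc.symm hab
  rw [G.adj_comm b a] at h2
  rw [G.adj_comm c a, G.adj_comm c b] at h3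
  tauto

/-- the quotient at a prime node is prime. -/
theorem prime_quot [Finite V] [Nonempty V] {x : Set V} (hx : Str G x) (hp : Prm G x)
    {r : Set V → V} (hr : ∀ y, ch (Str G) y x → r y ∈ y) :
    Prime (G.induce {v | ∃ y, ch (Str G) y x ∧ r y = v}) := by
  have hN := lam_str G
  intro M hM
  rcases Set.subsingleton_or_nontrivial M with h0 | h0
  · exact Or.inl h0
  · right
    obtain ⟨⟨a, ya, hya, hra⟩, haM, ⟨b, yb, hyb, hrb⟩, hbM, hab⟩ := h0
    let M' : Set V := {u | ∃ y, ch (Str G) y x ∧ u ∈ y ∧ ∃ m ∈ M, r y = m.1}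
    have hM'x : M' ⊆ x := by
      rintro u ⟨y, hy, hu, -⟩
      exact hy.2.2.1.1 hu
    have hmod : Mod G M' := by
      -- adjacency to `M'` only depends on the quotient
      have key : ∀ u z, u ∈ M' → z ∈ x → z ∉ M' → ∃ m ∈ M, ∃ s, s ∉ M ∧
          (∃ w, ch (Str G) w x ∧ z ∈ w ∧ r w = s.1) ∧ (G.Adj z u ↔ G.Adj s.1 m.1) := by
        rintro u z ⟨y, hy, hu, m, hm, hrm⟩ hzx hz
        have hne : x ≠ {z} := by
          rintro rfl
          have h1 := ch_nontrivial hN hy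
          exact Set.not_nontrivial_singleton h1
        obtain ⟨w, hw, hzw⟩ := exists_ch hN hx hzx hne
        have hwy : w ≠ y := by
          rintro rfl
          exact hz ⟨w, hw, hzw, m, hm, hrm⟩
        refine ⟨m, hm, ⟨r w, w, hw, rfl⟩, ?_, ⟨w, hw, hzw, rfl⟩, ?_⟩
        · intro hs
          exact hz ⟨w, hw, hzw, _, hs, rfl⟩
        · rw [← hrm]
          exact mod_pair hw.1.2.1 hy.1.2.1
            (fun c h1 h2 => hwy (ch_unique_mem hN hw hy h1 h2)) hzw (hr w hw) hu (hr y hy)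
      intro u hu v hv z hz
      by_cases hzx : z ∈ x
      · obtain ⟨m, hm, s, hs, ⟨w, hw, hzw, hrw⟩, h1⟩ := key u z hu hzx hz
        obtain ⟨m', hm', s', hs', ⟨w', hw', hzw', hrw'⟩, h2⟩ := key v z hv hzx hz
        have h3 : w' = w := ch_unique_mem hN hw' hw hzw' hzw
        have h4 : s' = s := Subtype.ext (by rw [← hrw, ← hrw', h3])
        subst h4
        rw [h1, h2]
        exact hM m hm m' hm' s' hs
      · exact hx.2.1 u (hM'x hu) v (hM'x hv) z hzx
    have haM' : r ya ∈ M' := ⟨ya, hya, hr ya hya, _, haM, hra⟩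
    have hbM' : r yb ∈ M' := ⟨yb, hyb, hr yb hyb, _, hbM, hrb⟩
    have hall : M' = x := by
      by_contra h1
      obtain ⟨y, hy, hMy⟩ := hp M' hmod ⟨_, haM'⟩ (lt_of_le_of_ne hM'x h1)
      have h2 : y = ya := ch_unique_mem hN hy hya (hMy haM') (hr ya hya)
      have h3 : y = yb := ch_unique_mem hN hy hyb (hMy hbM') (hr yb hyb)
      exact hab (Subtype.ext (hra.symm.trans ((congrArg r (h2.symm.trans h3)).trans hrb)))
    refine Set.eq_univ_of_forall ?_
    rintro ⟨c, y, hy, hrc⟩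
    have h1 : r y ∈ M' := by
      rw [hall]
      exact hy.2.2.1.1 (hr y hy)
    obtain ⟨y', hy', hry, m, hm, hrm⟩ := h1
    have h2 : y' = y := ch_unique_mem hN hy' hy hry (hr y hy)
    rw [h2] at hrm
    have h3 : (⟨c, y, hy, hrc⟩ : {v // ∃ y, ch (Str G) y x ∧ r y = v}) = m :=
      Subtype.ext (hrc.symm.trans hrm)
    rw [h3]
    exact hm

/-- the flip at a prime node -/
theorem flip_node [Finite V] [Nonempty V] {k t : ℕ} (hG : PrimeFlip k t G) {x : Set V}
    (hx : Str G x) (hp : Prm G x)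
    (h1 : ¬ ∀ y z, ch (Str G) y x → ch (Str G) z x → y ≠ z → ¬ adS G y z)
    (h2 : ¬ ∀ y z, ch (Str G) y x → ch (Str G) z x → y ≠ z → adS G y z) :
    ∃ (c : Set V → Fin k) (F : Fin k → Fin k → Prop), (∀ i j, F i j → F j i) ∧
      ¬ ∃ f g : Fin t → Set V, Function.Injective f ∧ Function.Injective g ∧
        (∀ i, ch (Str G) (f i) x) ∧ (∀ i, ch (Str G) (g i) x) ∧
        ∀ i j, f i ≠ g j ∧ (adS G (f i) (g j) ↔ ¬ F (c (f i)) (c (g j))) := by
  classical
  have hN := lam_str G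
  push Not at h1 h2
  obtain ⟨y1, z1, hy1, hz1, hyz1, had1⟩ := h1
  obtain ⟨y2, z2, hy2, hz2, hyz2, had2⟩ := h2
  obtain ⟨v0⟩ := ‹Nonempty V›
  have hex : ∀ y, ∃ v, ch (Str G) y x → v ∈ y := by
    intro y
    by_cases h : ch (Str G) y x
    · obtain ⟨a, ha⟩ := h.1.1
      exact ⟨a, fun _ => ha⟩
    · exact ⟨v0, fun h' => absurd h' h⟩
  choose r hr using hex
  have hinj : ∀ y z, ch (Str G) y x → ch (Str G) z x → r y = r z → y = z := by
    intro y z hy hz h
    exact ch_unique_mem hN hy hz (hr y hy) (h ▸ hr z hz)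
  set R : Set V := {v | ∃ y, ch (Str G) y x ∧ r y = v} with hR
  have hP : Prime (G.induce R) := prime_quot hx hp hr
  have hm : ∀ y, ch (Str G) y x → r y ∈ R := fun y hy => ⟨y, hy, rfl⟩
  have hadr : ∀ y z, ch (Str G) y x → ch (Str G) z x → y ≠ z →
      (adS G y z ↔ G.Adj (r y) (r z)) := fun y z hy hz h => adS_ch hy hz h (hr y hy) (hr z hz)
  have hcard : 4 ≤ R.ncard := by
    by_contra hlt
    have h3 : R.ncard ≠ 3 := fun h => not_prime_three h hP
    have h5 : R.ncard ≤ 2 := by omega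
    have h6 : ({r y1, r z1} : Set V) ⊆ R := by
      intro v hv
      rcases hv with rfl | hv
      · exact hm _ hy1
      · rw [Set.mem_singleton_iff.1 hv]
        exact hm _ hz1
    have h7 : ({r y1, r z1} : Set V).ncard = 2 :=
      Set.ncard_pair (fun h => hyz1 (hinj _ _ hy1 hz1 h))
    have h8 : ({r y1, r z1} : Set V) = R :=
      Set.eq_of_subset_of_ncard_le h6 (by omega) (Set.toFinite _)
    have h9 : ∀ y, ch (Str G) y x → y = y1 ∨ y = z1 := by
      intro y hy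
      have h10 := hm y hy
      rw [← h8] at h10
      rcases h10 with h10 | h10
      · exact Or.inl (hinj _ _ hy hy1 h10)
      · exact Or.inr (hinj _ _ hy hz1 (Set.mem_singleton_iff.1 h10))
    rw [hadr _ _ hy1 hz1 hyz1] at had1
    rw [hadr _ _ hy2 hz2 hyz2] at had2
    rcases h9 y2 hy2 with h10 | h10 <;> rcases h9 z2 hz2 with h11 | h11
    · exact hyz2 (h10.trans h11.symm)
    · rw [h10, h11] at had2
      exact had2 had1
    · rw [h10, h11] at had2
      exact had2 had1.symm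
    · exact hyz2 (h10.trans h11.symm)
  obtain ⟨c, F, H, hH, hF, hGH⟩ := hG R hcard hP
  let ρ : Set V → R := fun y => if h : ch (Str G) y x then ⟨r y, hm y h⟩ else ⟨r y1, hm y1 hy1⟩
  have hρ : ∀ y (h : ch (Str G) y x), ρ y = ⟨r y, hm y h⟩ := fun y h => dif_pos h
  refine ⟨fun y => c (ρ y), F, hF, ?_⟩
  rintro ⟨f, g, hf, hg, hfx, hgx, hfg⟩
  refine hH ⟨fun i => ρ (f i), fun i => ρ (g i), ?_, ?_, ?_⟩
  · intro i j hij
    dsimp only at hij
    rw [hρ _ (hfx i), hρ _ (hfx j)] at hij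
    exact hf (hinj _ _ (hfx i) (hfx j) (congrArg Subtype.val hij))
  · intro i j hij
    dsimp only at hij
    rw [hρ _ (hgx i), hρ _ (hgx j)] at hij
    exact hg (hinj _ _ (hgx i) (hgx j) (congrArg Subtype.val hij))
  · intro i j
    obtain ⟨h3, h4⟩ := hfg i j
    have h5 := hGH (ρ (f i)) (ρ (g j))
    have h6 : (G.induce R).Adj (ρ (f i)) (ρ (g j)) ↔ adS G (f i) (g j) := by
      rw [hadr _ _ (hfx i) (hgx j) h3, hρ _ (hfx i), hρ _ (hgx j)]
      rfl
    have h7 : ρ (f i) ≠ ρ (g j) := by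
      rw [hρ _ (hfx i), hρ _ (hgx j)]
      intro h8
      exact h3 (hinj _ _ (hfx i) (hgx j) (congrArg Subtype.val h8))
    rw [h6] at h5
    by_cases h8 : F (c (ρ (f i))) (c (ρ (g j)))
    · have h9 : ¬ adS G (f i) (g j) := fun h => (h4.1 h) h8
      by_contra h10
      exact h9 (h5.2 ⟨h7, iff_of_false h10 (fun h => h h8)⟩)
    · exact ((h5.1 (h4.2 h8)).2).2 h8

end Pool.MP_33c730_lc.Md
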