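/-
MP_33c730_lc (helper20): MSO definability of the modular decomposition and of the representatives.
-/
import Pool.Agent.Lib.MP_33c730_lc.Md.MDec
import Pool.Agent.Lib.MP_33c730_lc.Ws.WDef

set_option autoImplicit false

namespace Pool.MP_33c730_lc.Md

open Ws

section
variable {C α β : Type}

theorem def_sub (X Y : β) : Def C α β fun _ _ S => S X ⊆ S Y :=
  Def.congr (Def.all (Def.imp (Def.mem none X) (Def.mem none Y))) (fun _ _ _ => Iff.rfl)

theorem def_ssub (X Y : β) : Def C α β fun _ _ S => S X ⊂ S Y :=
  Def.congr (Def.and (def_sub X Y) (Def.not (def_sub Y X))) (fun _ _ _ => Iff.rfl)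

theorem def_nem (X : β) : Def C α β fun _ _ S => (S X).Nonempty :=
  Def.congr (Def.ex (Def.mem none X)) (fun _ _ _ => Iff.rfl)

theorem def_meet (X Y : β) : Def C α β fun _ _ S => (S X ∩ S Y).Nonempty :=
  Def.congr (Def.ex (Def.and (Def.mem none X) (Def.mem none Y))) (fun _ _ _ => Iff.rfl)

theorem def_mod (X : β) : Def C α β fun G _ S => Mod G.gr (S X) :=
  Def.congr (Def.all (Def.imp (Def.mem none X) (Def.all (Def.imp (Def.mem none X)
    (Def.all (Def.imp (Def.not (Def.mem none X))
      (Def.iff (Def.adj none (some (some none))) (Def.adj none (some none)))))))))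
    (fun _ _ _ => Iff.rfl)

theorem def_str (X : β) : Def C α β fun G _ S => Str G.gr (S X) :=
  Def.congr (Def.and (def_nem X) (Def.and (def_mod X) (Def.allS (Def.imp (def_mod none)
    (Def.imp (def_meet (some X) none) (Def.or (def_sub (some X) none) (def_sub none (some X))))))))
    (fun _ _ _ => Iff.rfl)

theorem def_ch (Y X : β) : Def C α β fun G _ S => ch (Str G.gr) (S Y) (S X) :=
  Def.congr (Def.and (def_str Y) (Def.and (def_str X) (Def.and (def_ssub Y X)
    (Def.allS (Def.imp (def_str none) (Def.imp (def_ssub (some Y) none)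
      (def_sub (some X) none)))))))
    (fun _ _ _ => Iff.rfl)

theorem def_mark (X Y Z : β) : Def C α β fun _ _ S => ∃ a, a ∈ S X ∧ a ∉ S Y ∧ a ∈ S Z :=
  Def.congr (Def.ex (Def.and (Def.mem none X) (Def.and (Def.not (Def.mem none Y))
    (Def.mem none Z)))) (fun _ _ _ => Iff.rfl)

theorem def_evq (Y : β) : Def C α β fun G _ S => evq (Str G.gr) (S Y) :=
  Def.congr (Def.exS (Def.and
    (Def.allS (Def.allS (Def.imp (Def.all (Def.mem none (some none))) (Def.imp
      (def_ch none (some none)) (Def.imp (def_sub (some (some (some Y))) none)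
        (def_mark (some none) none (some (some none))))))))
    (Def.and
    (Def.allS (Def.allS (Def.allS (Def.imp (def_ch (some none) (some (some none)))
      (Def.imp (def_ch none (some none)) (Def.imp (def_sub (some (some (some (some Y)))) none)
        (Def.iff (def_mark (some (some none)) (some none) (some (some (some none))))
          (Def.not (def_mark (some none) none (some (some (some none)))))))))))) 
    (Def.allS (Def.imp (def_ch (some (some Y)) none)
      (Def.not (def_mark none (some (some Y)) (some none))))))))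
    (fun _ _ _ => Iff.rfl)

theorem def_val (Z X : β) :
    Def C α β fun G _ S => val (Str G.gr) (evq (Str G.gr)) (S Z) (S X) :=
  Def.congr (Def.exS (Def.and (def_sub none (some X)) (Def.and (def_sub none (some Z))
    (Def.and (def_nem none) (Def.allS (Def.allS (Def.imp (def_ch none (some none))
      (Def.imp (def_sub (some none) (some (some (some X)))) (Def.imp (def_evq (some none))
        (Def.imp (def_meet (some none) (some (some none)))
          (def_meet none (some (some none))))))))))))) 
    (fun _ _ _ => Iff.rfl)

theorem def_lbq (p : ZMod 3 → β) (j : ZMod 3) (X : β) :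
    Def C α β fun G _ S => lbq (Str G.gr) (fun i => S (p i)) j (S X) :=
  Def.congr (Def.or (Def.and (def_evq X) (def_val (p j) X))
    (Def.and (Def.not (def_evq X)) (Def.not (def_val (p j) X)))) (fun _ _ _ => Iff.rfl)

theorem def_dcq (p : ZMod 3 → β) (Y X : β) :
    Def C α β fun G _ S => dcq (Str G.gr) (fun i => S (p i)) (S Y) (S X) :=
  Def.congr (Def.and (def_ch Y X) (Def.exFin fun j : ZMod 3 => Def.and (def_lbq p j X)
    (def_lbq p (j + 1) Y))) (fun _ _ _ => Iff.rfl)

theorem def_dsc (p : ZMod 3 → β) (Z : β) (i : α) :
    Def C α β fun G v S =>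
      dsc (Str G.gr) (dcq (Str G.gr) (fun i => S (p i))) (S Z) (v i) :=
  Def.congr (Def.and (Def.mem i Z) (Def.allS (Def.allS (Def.imp (def_ch (some none) none)
    (Def.imp (Def.mem i (some none)) (Def.imp (def_sub none (some (some Z)))
      (def_dcq (fun i => some (some (p i))) (some none) none)))))))
    (fun _ _ _ => Iff.rfl)

theorem def_rp (p q : ZMod 3 → β) (X : β) (i : α) :
    Def C α β fun G v S => rp (Str G.gr) (dcq (Str G.gr) (fun i => S (p i)))
      (dcq (Str G.gr) (fun i => S (q i))) (S X) (v i) :=
  Def.congr (Def.exS (Def.and (def_dcq (fun i => some (q i)) none (some X))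
    (Def.and (def_ch none (some X)) (def_dsc (fun i => some (p i)) none i))))
    (fun _ _ _ => Iff.rfl)
end

end Pool.MP_33c730_lc.Md
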