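/-
MP_33c730_lc (helper20): transfer to classes of graphs which are interdefinable with graphs with an
MSO definable forest order.
-/
import Pool.Agent.Lib.MP_33c730_lc.Ws.SpFlip

set_option autoImplicit false

namespace Pool.MP_33c730_lc.Md

open Ws

section
variable {C D : Type} {k : ℕ}

theorem def_forest {C : Type} [LRel C] :
    Def C Empty (LRel.P0 C) fun G _ S => Forest G.gr (LRel.L G S) := by
  have h : ∀ {α : Type} (i j : α), Def C α (LRel.P0 C) fun G v S => LRel.L G S (v i) (v j) :=
    fun i j => LRel.dL i j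
  refine Def.congr (Def.and (Def.all (h none none)) (Def.and
    (Def.all (Def.all (Def.imp (h (some none) none) (Def.imp (h none (some none))
      (Def.eq (some none) none)))))
    (Def.and
    (Def.all (Def.all (Def.all (Def.imp (h (some (some none)) (some none))
      (Def.imp (h (some none) none) (h (some (some none)) none))))))
    (Def.and
    (Def.all (Def.all (Def.all (Def.imp (h (some (some none)) none)
      (Def.imp (h (some none) none) (Def.or (h (some (some none)) (some none))
        (h (some none) (some (some none)))))))))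
    (Def.all (Def.all (Def.imp (Def.adj (some none) none)
      (Def.or (h (some none) none) (h none (some none)))))))))) ?_
  intro V G v S
  constructor
  · rintro ⟨h1, h2, h3, h4, h5⟩
    exact ⟨h1, h2, h3, h4, h5⟩
  · intro h
    exact ⟨h.refl, h.antisymm, h.trans, h.chain, h.comp⟩

/-- the graph defined by `η` and `S` in `G` has an MSO definable forest order and defines the
adjacency of `G` by `θ`. -/
def Pres [LRel (C ⊕ (D ⊕ Fin (k + 1)))] (η : Fin (k + 1) → Fin (k + 1) → MSO C (Fin 2) D)
    (θ : FO (C ⊕ (D ⊕ Fin (k + 1))) (Fin 2)) {V : Type} (G : CG C V) : Prop :=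
  ∃ S : D → Set V, (∃ W, Forest (Interp η G S).gr (LRel.L (Interp η G S) W)) ∧
    ∀ x y, G.gr.Adj x y ↔ θ.Sat (Interp η G S) (fun _ _ => False) ![(x, 0), (y, 0)]

theorem main_pres [Finite C] [Finite D] [LRel (C ⊕ (D ⊕ Fin (k + 1)))]
    (η : Fin (k + 1) → Fin (k + 1) → MSO C (Fin 2) D) (θ : FO (C ⊕ (D ⊕ Fin (k + 1))) (Fin 2))
    (hθ : NoLt θ) (φ : FO C Empty) (hφ : OrderInvariant φ) :
    ∃ ψ : MSO C Empty Empty, ∀ (V : Type) [Finite V] (G : CG C V) (lt : V → V → Prop),
      IsStrictTotalOrder V lt →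
      (ψ.Sat G Empty.elim Empty.elim ↔ Pres η θ G ∧ φ.Sat G lt Empty.elim) := by
  obtain ⟨ψ, hψ⟩ := main_abs (C ⊕ (D ⊕ Fin (k + 1))) (trl θ φ) (trl_inv θ hθ φ hφ)
  -- the three properties of the interpreted graph
  have g1 : Def C Empty D fun G v S =>
      ∃ W, Forest (Interp η G S).gr (LRel.L (Interp η G S) W) := by
    have := LRel.fin (C := C ⊕ (D ⊕ Fin (k + 1)))
    obtain ⟨χ, hχ⟩ := Def.close (def_forest (C := C ⊕ (D ⊕ Fin (k + 1))))
    refine Def.congr (Def.rename (def_interp η χ Empty.elim) (fun a => a)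
      (Sum.elim (fun d => d) (fun p => p.1.elim))) ?_
    intro V G v S
    exact hχ _ _ _ _
  have g2 : Def C Empty D fun {V} G v S =>
      ψ.Sat (Interp η G S) (Empty.elim : Empty → V × Fin (k + 1)) Empty.elim := by
    refine Def.congr (Def.rename (def_interp η ψ Empty.elim) (fun a => a)
      (Sum.elim (fun d => d) (fun p => p.1.elim))) ?_
    intro V G v S
    have h1 : (fun a : Empty => ((v a, Empty.elim a) : V × Fin (k + 1))) = Empty.elim := by
      funext a
      exact a.elim
    have h2 : (fun X : Empty => {p : V × Fin (k + 1) | p.1 ∈ S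
        ((Sum.elim (fun d => d) (fun p => p.1.elim) : D ⊕ (Empty × Fin (k + 1)) → D)
          (.inr (X, p.2)))}) = Empty.elim := by
      funext a
      exact a.elim
    change ψ.Sat (Interp η G S) (fun a : Empty => ((v a, Empty.elim a) : V × Fin (k + 1)))
      (fun X : Empty => {p : V × Fin (k + 1) | p.1 ∈ S
        ((Sum.elim (fun d => d) (fun p => p.1.elim) : D ⊕ (Empty × Fin (k + 1)) → D)
          (.inr (X, p.2)))}) ↔ _
    rw [h1, h2]
  have g3 : Def C Empty D fun G v S => ∀ x y, G.gr.Adj x y ↔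
      θ.Sat (Interp η G S) (fun _ _ => False) ![(x, 0), (y, 0)] := by
    have h1 : Def C (Option (Option Empty)) D fun G v S =>
        θ.Sat (Interp η G S) (fun _ _ => False) ![(v (some none), 0), (v none, 0)] := by
      refine Def.congr (Def.rename (def_interp η (toMSO (β := Empty) θ) (fun _ => 0))
        ![some none, none] (Sum.elim (fun d => d) (fun p => p.1.elim))) ?_
      intro V G v S
      rw [toMSO_sat _ (fun _ _ => False) θ hθ]
      have h2 : (fun a => ((v ((![some none, none] : Fin 2 → Option (Option Empty)) a), 0) :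
          V × Fin (k + 1))) = ![(v (some none), 0), (v none, 0)] := by
        funext a
        fin_cases a <;> rfl
      rw [h2]
      exact Iff.rfl
    exact Def.congr (Def.all (Def.all (Def.iff (Def.adj (some none) none) h1)))
      (fun _ _ _ => Iff.rfl)
  obtain ⟨ω, hω⟩ := Def.close (Def.and g1 (Def.and g3 g2))
  refine ⟨ω, ?_⟩
  intro V _ G lt hlt
  rw [hω V G Empty.elim Empty.elim]
  have key : ∀ S : D → Set V, (∃ W, Forest (Interp η G S).gr (LRel.L (Interp η G S) W)) →
      (∀ x y, G.gr.Adj x y ↔ θ.Sat (Interp η G S) (fun _ _ => False) ![(x, 0), (y, 0)]) →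
      (ψ.Sat (Interp η G S) (Empty.elim : Empty → V × Fin (k + 1)) Empty.elim ↔
        φ.Sat G lt Empty.elim) := by
    intro S h1 h2
    rw [hψ _ (Interp η G S) h1 (olx lt) (olx_strict lt hlt)]
    have h3 := trl_interp η θ hθ G S h2 lt φ Empty.elim
    have h4 : (fun a : Empty => ((Empty.elim a, 0) : V × Fin (k + 1))) = Empty.elim := by
      funext a
      exact a.elim
    rw [h4] at h3
    exact h3
  constructor
  · rintro ⟨S, h1, h2, h3⟩
    exact ⟨⟨S, h1, h2⟩, (key S h1 h2).1 h3⟩
  · rintro ⟨⟨S, h1, h2⟩, h3⟩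
    exact ⟨S, h1, h2, (key S h1 h2).2 h3⟩
end

/-! ### a subgraph -/

/-- delete the edges at the vertices of colour `c0` -/
def nag {C V : Type} (c0 : C) (G : CG C V) : CG C V where
  gr :=
    { Adj := fun x y => ¬ G.col c0 x ∧ ¬ G.col c0 y ∧ G.gr.Adj x y
      symm := ⟨fun _ _ h => ⟨h.2.1, h.1, h.2.2.symm⟩⟩
      loopless := ⟨fun _ h => h.2.2.ne rfl⟩ }
  col := G.col

theorem Def.nag {C α β : Type} (c0 : C)
    {R : ∀ {V : Type}, CG C V → (α → V) → (β → Set V) → Prop} (h : Def C α β R) :
    Def C α β fun G v S => R (nag c0 G) v S := by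
  obtain ⟨φ, hφ⟩ := h
  have key : ∀ {α β : Type} (φ : MSO C α β),
      Def C α β fun G v S => φ.Sat (Md.nag c0 G) v S := by
    intro α β φ
    induction φ with
    | eq i j => exact Def.congr (Def.eq i j) (fun _ _ _ => Iff.rfl)
    | adj i j => exact Def.congr (Def.and (Def.not (Def.col c0 i)) (Def.and
        (Def.not (Def.col c0 j)) (Def.adj i j))) (fun _ _ _ => Iff.rfl)
    | col c i => exact Def.congr (Def.col c i) (fun _ _ _ => Iff.rfl)
    | mem i X => exact Def.congr (Def.mem i X) (fun _ _ _ => Iff.rfl)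
    | neg φ ih => exact Def.congr (Def.not ih) (fun _ _ _ => Iff.rfl)
    | and φ ψ ih1 ih2 => exact Def.congr (Def.and ih1 ih2) (fun _ _ _ => Iff.rfl)
    | ex φ ih => exact Def.congr (Def.ex ih) (fun _ _ _ => Iff.rfl)
    | exS φ ih => exact Def.congr (Def.exS ih) (fun _ _ _ => Iff.rfl)
  exact Def.congr (key φ) (fun G v S => hφ _ _ v S)

end Pool.MP_33c730_lc.Md
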