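/-
MP_33c730_lc (helper20): the forest order on a graph which describes a tree decomposition.
-/
import Pool.Agent.Lib.MP_33c730_lc.Md.MainI

set_option autoImplicit false

namespace Pool.MP_33c730_lc.Md

open Ws

section
variable {C U : Type}

/-- the base vertex `w` belongs to the node `a` -/
def mm (c0 : C) (H : CG C U) (w a : U) : Prop := H.col c0 w ∧ ¬ H.col c0 a ∧ H.gr.Adj w a

/-- `a` is a node -/
def rl (c0 : C) (H : CG C U) (a : U) : Prop := ∃ w, mm c0 H w a

/-- the set of `b` is contained in the set of `a` -/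
def sb (c0 : C) (H : CG C U) (b a : U) : Prop := ∀ w, mm c0 H w b → mm c0 H w a

/-- the nodes `a` and `b` are contained properly in the same nodes -/
def sbq (c0 : C) (H : CG C U) (a b : U) : Prop :=
  ∀ c, rl c0 H c → ((sb c0 H a c ∧ ¬ sb c0 H c a) ↔ (sb c0 H b c ∧ ¬ sb c0 H c b))

/-- the forest order -/
def LL (c0 : C) (T : ℕ) (H : CG C U) (W : PW T → Set U) (a b : U) : Prop :=
  a = b ∨ (rl c0 H a ∧ ∃ b', rl c0 H b' ∧ ((rl c0 H b ∧ sb c0 H b b') ∨ mm c0 H b b') ∧
    sbq c0 H a b' ∧ leW (nag c0 H).gr W a b')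

/-- `c` is the parent of `a` -/
def prq (c0 : C) (H : CG C U) (a c : U) : Prop :=
  rl c0 H a ∧ rl c0 H c ∧ (sb c0 H a c ∧ ¬ sb c0 H c a) ∧
    ∀ d, rl c0 H d → (sb c0 H a d ∧ ¬ sb c0 H d a) → sb c0 H c d
end

section
variable {C α β : Type} (c0 : C)

theorem def_mm (i j : α) : Def C α β fun G v _ => mm c0 G (v i) (v j) :=
  Def.congr (Def.and (Def.col c0 i) (Def.and (Def.not (Def.col c0 j)) (Def.adj i j)))
    (fun _ _ _ => Iff.rfl)

theorem def_rl (i : α) : Def C α β fun G v _ => rl c0 G (v i) :=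
  Def.congr (Def.ex (def_mm c0 none (some i))) (fun _ _ _ => Iff.rfl)

theorem def_sb (i j : α) : Def C α β fun G v _ => sb c0 G (v i) (v j) :=
  Def.congr (Def.all (Def.imp (def_mm c0 none (some i)) (def_mm c0 none (some j))))
    (fun _ _ _ => Iff.rfl)

theorem def_sbq (i j : α) : Def C α β fun G v _ => sbq c0 G (v i) (v j) :=
  Def.congr (Def.all (Def.imp (def_rl c0 none) (Def.iff
    (Def.and (def_sb c0 (some i) none) (Def.not (def_sb c0 none (some i))))
    (Def.and (def_sb c0 (some j) none) (Def.not (def_sb c0 none (some j)))))))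
    (fun _ _ _ => Iff.rfl)

theorem def_LL (T : ℕ) (i j : α) : Def C α (PW T) fun G v S => LL c0 T G S (v i) (v j) := by
  have h : Def C (Option α) (PW T) fun G v S =>
      leW (nag c0 G).gr S (v (some i)) (v none) :=
    Def.nag c0 (R := fun G v S => leW G.gr S (v (some i)) (v none)) (def_leW (some i) none)
  exact Def.congr (Def.or (Def.eq i j) (Def.and (def_rl c0 i) (Def.ex (Def.and (def_rl c0 none)
    (Def.and (Def.or (Def.and (def_rl c0 (some j)) (def_sb c0 (some j) none))
      (def_mm c0 (some j) none)) (Def.and (def_sbq c0 (some i) none) h))))))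
    (fun _ _ _ => Iff.rfl)

/-- the forest order as an MSO definable relation -/
def relL (T : ℕ) : LRel C where
  P0 := PW T
  fin := inferInstance
  L G S := LL c0 T G S
  dL i j := def_LL c0 T i j
end

section
variable {C α : Type} (c0 : C)

theorem DefF.all {R : ∀ {V : Type}, CG C V → (Option α → V) → Prop}
    (h : DefF C (Option α) R) : DefF C α fun G v => ∀ x, R G (ext x v) := by
  obtain ⟨θ, h1, h2⟩ := h
  refine ⟨.neg (.ex (.neg θ)), h1, fun V G r v => ?_⟩
  change (¬ ∃ x, ¬ θ.Sat G r (ext x v)) ↔ _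
  rw [not_exists_not]
  exact forall_congr' fun x => h2 V G r _

theorem DefF.ex {R : ∀ {V : Type}, CG C V → (Option α → V) → Prop}
    (h : DefF C (Option α) R) : DefF C α fun G v => ∃ x, R G (ext x v) := by
  obtain ⟨θ, h1, h2⟩ := h
  exact ⟨.ex θ, h1, fun V G r v => exists_congr fun x => h2 V G r _⟩

theorem DefF.imp {R R' : ∀ {V : Type}, CG C V → (α → V) → Prop} (h : DefF C α R)
    (h' : DefF C α R') : DefF C α fun G v => R G v → R' G v := by
  refine DefF.congr (DefF.or (DefF.not h) h') ?_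
  intro V G v
  tauto

theorem defF_mm (i j : α) : DefF C α fun G v => mm c0 G (v i) (v j) :=
  DefF.congr (DefF.and (DefF.col c0 i) (DefF.and (DefF.not (DefF.col c0 j)) (DefF.adj i j)))
    (fun _ _ => Iff.rfl)

theorem defF_rl (i : α) : DefF C α fun G v => rl c0 G (v i) :=
  DefF.congr (DefF.ex (defF_mm c0 none (some i))) (fun _ _ => Iff.rfl)

theorem defF_sb (i j : α) : DefF C α fun G v => sb c0 G (v i) (v j) :=
  DefF.congr (DefF.all (DefF.imp (defF_mm c0 none (some i)) (defF_mm c0 none (some j))))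
    (fun _ _ => Iff.rfl)

theorem defF_prq (i j : α) : DefF C α fun G v => prq c0 G (v i) (v j) :=
  DefF.congr (DefF.and (defF_rl c0 i) (DefF.and (defF_rl c0 j) (DefF.and
    (DefF.and (defF_sb c0 i j) (DefF.not (defF_sb c0 j i)))
    (DefF.all (DefF.imp (defF_rl c0 none) (DefF.imp
      (DefF.and (defF_sb c0 (some i) none) (DefF.not (defF_sb c0 none (some i))))
      (defF_sb c0 (some j) none)))))))
    (fun _ _ => Iff.rfl)
end

end Pool.MP_33c730_lc.Md
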