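/-
MP_33c730_lc (helper20): the forest order on a graph which describes a tree decomposition.
-/
import Pool.Agent.Lib.MP_33c730_lc.Md.LRelT
import Pool.Agent.Lib.MP_33c730_lc.Md.Lam

set_option autoImplicit false

namespace Pool.MP_33c730_lc.Md

open Ws

/-- `H` describes the laminar family `N` on `V`: `vx` are the base vertices, `nd u X` says that the
element `u` stands for the set `X`. -/
structure Rep {C U V : Type} (c0 : C) (H : CG C U) (N : Set V → Prop) (vx : V → U)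
    (nd : U → Set V → Prop) : Prop where
  vcol : ∀ u, H.col c0 u ↔ ∃ v, u = vx v
  vinj : Function.Injective vx
  nd_not : ∀ u X, nd u X → ¬ H.col c0 u
  nd_N : ∀ u X, nd u X → N X
  nd_fun : ∀ u X X', nd u X → nd u X' → X = X'
  nd_inj : ∀ u u' X, nd u X → nd u' X → u = u'
  nd_ex : ∀ X, N X → ∃ u, nd u X
  adj_vn : ∀ v u, ¬ H.col c0 u → (H.gr.Adj (vx v) u ↔ ∃ X, nd u X ∧ v ∈ X)
  adj_vv : ∀ v w, ¬ H.gr.Adj (vx v) (vx w)
  adj_nn : ∀ u u', ¬ H.col c0 u → ¬ H.col c0 u' → H.gr.Adj u u' →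
    ∃ X Y Z, nd u X ∧ nd u' Y ∧ ch N X Z ∧ ch N Y Z

section
variable {C U V : Type} {c0 : C} {H : CG C U} {N : Set V → Prop} {vx : V → U}
  {nd : U → Set V → Prop}

theorem Rep.mm_iff (hR : Rep c0 H N vx nd) {w a : U} :
    mm c0 H w a ↔ ∃ v X, w = vx v ∧ nd a X ∧ v ∈ X := by
  constructor
  · rintro ⟨h1, h2, h3⟩
    obtain ⟨v, rfl⟩ := (hR.vcol w).1 h1
    obtain ⟨X, hX, hv⟩ := (hR.adj_vn v a h2).1 h3
    exact ⟨v, X, rfl, hX, hv⟩
  · rintro ⟨v, X, rfl, hX, hv⟩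
    have h1 := hR.nd_not a X hX
    exact ⟨(hR.vcol _).2 ⟨v, rfl⟩, h1, (hR.adj_vn v a h1).2 ⟨X, hX, hv⟩⟩

theorem Rep.mm_iff' (hR : Rep c0 H N vx nd) {v : V} {a : U} {X : Set V} (ha : nd a X) :
    mm c0 H (vx v) a ↔ v ∈ X := by
  rw [hR.mm_iff]
  constructor
  · rintro ⟨v', X', h1, h2, h3⟩
    rw [hR.vinj h1, hR.nd_fun a X X' ha h2]
    exact h3
  · intro h
    exact ⟨v, X, rfl, ha, h⟩

theorem Rep.rl_iff (hR : Rep c0 H N vx nd) (hN : Lam N) {a : U} :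
    rl c0 H a ↔ ∃ X, nd a X := by
  constructor
  · rintro ⟨w, hw⟩
    obtain ⟨v, X, -, h, -⟩ := hR.mm_iff.1 hw
    exact ⟨X, h⟩
  · rintro ⟨X, hX⟩
    obtain ⟨v, hv⟩ := hN.ne X (hR.nd_N a X hX)
    exact ⟨vx v, (hR.mm_iff' hX).2 hv⟩

theorem Rep.sb_iff (hR : Rep c0 H N vx nd) {a b : U} {X Y : Set V} (ha : nd a X) (hb : nd b Y) :
    sb c0 H a b ↔ X ⊆ Y := by
  constructor
  · intro h v hv
    exact (hR.mm_iff' hb).1 (h _ ((hR.mm_iff' ha).2 hv))
  · intro h w hw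
    obtain ⟨v, X', rfl, h1, h2⟩ := hR.mm_iff.1 hw
    rw [hR.nd_fun a X' X h1 ha] at h2
    exact (hR.mm_iff' hb).2 (h h2)

theorem Rep.ssb_iff (hR : Rep c0 H N vx nd) {a b : U} {X Y : Set V} (ha : nd a X)
    (hb : nd b Y) : (sb c0 H a b ∧ ¬ sb c0 H b a) ↔ X ⊂ Y := by
  rw [hR.sb_iff ha hb, hR.sb_iff hb ha]
  exact Iff.rfl

theorem Rep.sbq_iff (hR : Rep c0 H N vx nd) (hN : Lam N) {a b : U} {X Y : Set V} (ha : nd a X)
    (hb : nd b Y) : sbq c0 H a b ↔ ∀ Z, N Z → (X ⊂ Z ↔ Y ⊂ Z) := by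
  constructor
  · intro h Z hZ
    obtain ⟨c, hc⟩ := hR.nd_ex Z hZ
    have h1 := h c ((hR.rl_iff hN).2 ⟨Z, hc⟩)
    rwa [hR.ssb_iff ha hc, hR.ssb_iff hb hc] at h1
  · intro h c hc
    obtain ⟨Z, hZ⟩ := (hR.rl_iff hN).1 hc
    rw [hR.ssb_iff ha hZ, hR.ssb_iff hb hZ]
    exact h Z (hR.nd_N c Z hZ)

theorem Rep.prq_iff (hR : Rep c0 H N vx nd) (hN : Lam N) {a c : U} :
    prq c0 H a c ↔ ∃ X Z, nd a X ∧ nd c Z ∧ ch N X Z := by
  constructor
  · rintro ⟨h1, h2, h3, h4⟩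
    obtain ⟨X, hX⟩ := (hR.rl_iff hN).1 h1
    obtain ⟨Z, hZ⟩ := (hR.rl_iff hN).1 h2
    refine ⟨X, Z, hX, hZ, hR.nd_N a X hX, hR.nd_N c Z hZ, (hR.ssb_iff hX hZ).1 h3, ?_⟩
    intro Y hY hXY
    obtain ⟨d, hd⟩ := hR.nd_ex Y hY
    exact (hR.sb_iff hZ hd).1 (h4 d ((hR.rl_iff hN).2 ⟨Y, hd⟩) ((hR.ssb_iff hX hd).2 hXY))
  · rintro ⟨X, Z, hX, hZ, h⟩
    refine ⟨(hR.rl_iff hN).2 ⟨X, hX⟩, (hR.rl_iff hN).2 ⟨Z, hZ⟩,
      (hR.ssb_iff hX hZ).2 h.2.2.1, ?_⟩
    intro d hd h1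
    obtain ⟨Y, hY⟩ := (hR.rl_iff hN).1 hd
    exact (hR.sb_iff hZ hY).2 (h.2.2.2 Y (hR.nd_N d Y hY) ((hR.ssb_iff hX hY).1 h1))

/-- the set below an element -/
def gs (vx : V → U) (nd : U → Set V → Prop) (b : U) (Y : Set V) : Prop :=
  (∃ v, b = vx v ∧ Y = {v}) ∨ nd b Y

theorem Rep.gs_fun (hR : Rep c0 H N vx nd) {b : U} {Y Y' : Set V} (h : gs vx nd b Y)
    (h' : gs vx nd b Y') : Y = Y' := by
  rcases h with ⟨v, rfl, rfl⟩ | h
  · rcases h' with ⟨v', h1, rfl⟩ | h'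
    · rw [hR.vinj h1]
    · exact absurd ((hR.vcol _).2 ⟨v, rfl⟩) (hR.nd_not _ _ h')
  · rcases h' with ⟨v', rfl, rfl⟩ | h'
    · exact absurd ((hR.vcol _).2 ⟨v', rfl⟩) (hR.nd_not _ _ h)
    · exact hR.nd_fun _ _ _ h h'

theorem Rep.gs_ne (hR : Rep c0 H N vx nd) (hN : Lam N) {b : U} {Y : Set V}
    (h : gs vx nd b Y) : Y.Nonempty := by
  rcases h with ⟨v, rfl, rfl⟩ | h
  · exact Set.singleton_nonempty v
  · exact hN.ne Y (hR.nd_N b Y h)

theorem Rep.LL_iff (hR : Rep c0 H N vx nd) (hN : Lam N) {T : ℕ} {W : PW T → Set U} {a b : U} :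
    LL c0 T H W a b ↔ a = b ∨ ∃ X Y B b', nd a X ∧ gs vx nd b Y ∧ Y ⊆ B ∧ nd b' B ∧
      (∀ Z, N Z → (X ⊂ Z ↔ B ⊂ Z)) ∧ leW (nag c0 H).gr W a b' := by
  unfold LL
  refine or_congr Iff.rfl ?_
  constructor
  · rintro ⟨h1, b', h2, h3, h4, h5⟩
    obtain ⟨X, hX⟩ := (hR.rl_iff hN).1 h1
    obtain ⟨B, hB⟩ := (hR.rl_iff hN).1 h2
    rw [hR.sbq_iff hN hX hB] at h4
    rcases h3 with ⟨h3, h6⟩ | h3
    · obtain ⟨Y, hY⟩ := (hR.rl_iff hN).1 h3
      exact ⟨X, Y, B, b', hX, Or.inr hY, (hR.sb_iff hY hB).1 h6, hB, h4, h5⟩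
    · obtain ⟨v, B', rfl, h6, h7⟩ := hR.mm_iff.1 h3
      rw [hR.nd_fun b' B' B h6 hB] at h7
      exact ⟨X, {v}, B, b', hX, Or.inl ⟨v, rfl, rfl⟩, Set.singleton_subset_iff.2 h7, hB, h4, h5⟩
  · rintro ⟨X, Y, B, b', hX, hY, hYB, hB, h4, h5⟩
    refine ⟨(hR.rl_iff hN).2 ⟨X, hX⟩, b', (hR.rl_iff hN).2 ⟨B, hB⟩, ?_,
      (hR.sbq_iff hN hX hB).2 h4, h5⟩
    rcases hY with ⟨v, rfl, rfl⟩ | hY
    · exact Or.inr ((hR.mm_iff' hB).2 (hYB rfl))
    · exact Or.inl ⟨(hR.rl_iff hN).2 ⟨Y, hY⟩, (hR.sb_iff hY hB).2 hYB⟩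

theorem Rep.forest (hR : Rep c0 H N vx nd) (hN : Lam N) {T : ℕ} {W : PW T → Set U}
    (hF : Forest (nag c0 H).gr (leW (nag c0 H).gr W)) : Forest H.gr (LL c0 T H W) where
  refl x := Or.inl rfl
  antisymm a b hab hba := by
    by_contra hne
    rw [hR.LL_iff hN] at hab hba
    rcases hab with h | ⟨X, Y, B, b', hX, hY, hYB, hB, h1, h2⟩
    · exact hne h
    · rcases hba with h | ⟨Y', X', A, a', hY', hX', hXA, hA, h3, h4⟩
      · exact hne h.symm
      · have e1 : Y' = Y := hR.gs_fun (Or.inr hY') hY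
        have e2 : X' = X := hR.gs_fun hX' (Or.inr hX)
        subst e1 e2
        have f1 : Y' = B := by
          by_contra h5
          have h6 : Y' ⊂ B := lt_of_le_of_ne hYB h5
          have h7 : A ⊂ B := (h3 B (hR.nd_N _ _ hB)).1 h6
          have h8 : X' ⊂ B := lt_of_le_of_lt hXA h7
          exact ((h1 B (hR.nd_N _ _ hB)).1 h8).2 (Set.Subset.refl _)
        subst f1
        have f2 : X' = A := by
          by_contra h5
          have h6 : X' ⊂ A := lt_of_le_of_ne hXA h5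
          have h7 : Y' ⊂ A := (h1 A (hR.nd_N _ _ hA)).1 h6
          exact ((h3 A (hR.nd_N _ _ hA)).1 h7).2 (Set.Subset.refl _)
        subst f2
        have g1 : b' = b := hR.nd_inj _ _ _ hB hY'
        have g2 : a' = a := hR.nd_inj _ _ _ hA hX
        rw [g1] at h2
        rw [g2] at h4
        exact hne (hF.antisymm a b h2 h4)
  trans a b c hab hbc := by
    rw [hR.LL_iff hN] at hab hbc
    rcases hab with rfl | ⟨X, Y, B, b', hX, hY, hYB, hB, h1, h2⟩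
    · exact (hR.LL_iff hN).2 hbc
    · rcases hbc with rfl | ⟨Y', Z, C', c', hY', hZ, hZC, hC, h3, h4⟩
      · exact (hR.LL_iff hN).2 (Or.inr ⟨X, Y, B, b', hX, hY, hYB, hB, h1, h2⟩)
      · have e1 : Y' = Y := hR.gs_fun (Or.inr hY') hY
        subst e1
        rw [hR.LL_iff hN]
        right
        rcases hYB.eq_or_ssubset with h5 | h5
        · subst h5
          have g1 : b' = b := hR.nd_inj _ _ _ hB hY'
          subst g1
          exact ⟨X, Z, C', c', hX, hZ, hZC, hC, fun D hD => (h1 D hD).trans (h3 D hD),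
            hF.trans _ _ _ h2 h4⟩
        · have h6 : C' ⊂ B := (h3 B (hR.nd_N _ _ hB)).1 h5
          exact ⟨X, Z, B, b', hX, hZ, hZC.trans h6.1, hB, h1, h2⟩
  chain a b c hac hbc := by
    rw [hR.LL_iff hN] at hac hbc
    rcases hac with rfl | ⟨X, Z, A, a', hX, hZ, hZA, hA, h1, h2⟩
    · exact Or.inr ((hR.LL_iff hN).2 hbc)
    · rcases hbc with rfl | ⟨Y, Z', B, b', hY, hZ', hZB, hB, h3, h4⟩
      · exact Or.inl ((hR.LL_iff hN).2 (Or.inr ⟨X, Z, A, a', hX, hZ, hZA, hA, h1, h2⟩))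
      · have e1 : Z' = Z := hR.gs_fun hZ' hZ
        subst e1
        obtain ⟨v, hv⟩ := hR.gs_ne hN hZ
        have key : ∀ {a b : U} {X Y A B : Set V} {a' b' : U}, nd a X → nd b Y → nd a' A →
            nd b' B → (∀ Z, N Z → (X ⊂ Z ↔ A ⊂ Z)) → (∀ Z, N Z → (Y ⊂ Z ↔ B ⊂ Z)) →
            leW (nag c0 H).gr W b b' → A ⊂ B → LL c0 T H W b a := by
          intro a b X Y A B a' b' hX hY hA hB h1 h3 h4 h5
          have h6 : X ⊂ B := (h1 B (hR.nd_N _ _ hB)).2 h5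
          rw [hR.LL_iff hN]
          exact Or.inr ⟨Y, X, B, b', hY, Or.inr hX, h6.1, hB, h3, h4⟩
        rcases hN.lm A B (hR.nd_N _ _ hA) (hR.nd_N _ _ hB) ⟨v, hZA hv, hZB hv⟩ with h5 | h5
        · rcases h5.eq_or_ssubset with h6 | h6
          · subst h6
            have g1 : a' = b' := hR.nd_inj _ _ _ hA hB
            subst g1
            rcases hF.chain a b a' h2 h4 with h7 | h7
            · left
              rw [hR.LL_iff hN]
              exact Or.inr ⟨X, Y, Y, b, hX, Or.inr hY, Set.Subset.refl _, hY,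
                fun D hD => (h1 D hD).trans (h3 D hD).symm, h7⟩
            · right
              rw [hR.LL_iff hN]
              exact Or.inr ⟨Y, X, X, a, hY, Or.inr hX, Set.Subset.refl _, hX,
                fun D hD => (h3 D hD).trans (h1 D hD).symm, h7⟩
          · exact Or.inr (key hX hY hA hB h1 h3 h4 h6)
        · rcases h5.eq_or_ssubset with h6 | h6
          · subst h6
            have g1 : a' = b' := hR.nd_inj _ _ _ hA hB
            subst g1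
            rcases hF.chain a b a' h2 h4 with h7 | h7
            · left
              rw [hR.LL_iff hN]
              exact Or.inr ⟨X, Y, Y, b, hX, Or.inr hY, Set.Subset.refl _, hY,
                fun D hD => (h1 D hD).trans (h3 D hD).symm, h7⟩
            · right
              rw [hR.LL_iff hN]
              exact Or.inr ⟨Y, X, X, a, hY, Or.inr hX, Set.Subset.refl _, hX,
                fun D hD => (h3 D hD).trans (h1 D hD).symm, h7⟩
          · exact Or.inl (key hY hX hB hA h3 h1 h2 h6)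
  comp x y hxy := by
    by_cases hx : H.col c0 x
    · obtain ⟨v, rfl⟩ := (hR.vcol x).1 hx
      by_cases hy : H.col c0 y
      · obtain ⟨w, rfl⟩ := (hR.vcol y).1 hy
        exact absurd hxy (hR.adj_vv v w)
      · obtain ⟨X, hX, hv⟩ := (hR.adj_vn v y hy).1 hxy
        right
        rw [hR.LL_iff hN]
        exact Or.inr ⟨X, {v}, X, y, hX, Or.inl ⟨v, rfl, rfl⟩, Set.singleton_subset_iff.2 hv, hX,
          fun _ _ => Iff.rfl, hF.refl y⟩
    · by_cases hy : H.col c0 y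
      · obtain ⟨v, rfl⟩ := (hR.vcol y).1 hy
        obtain ⟨X, hX, hv⟩ := (hR.adj_vn v x hx).1 hxy.symm
        left
        rw [hR.LL_iff hN]
        exact Or.inr ⟨X, {v}, X, x, hX, Or.inl ⟨v, rfl, rfl⟩, Set.singleton_subset_iff.2 hv, hX,
          fun _ _ => Iff.rfl, hF.refl x⟩
      · obtain ⟨X, Y, Z, hX, hY, hXZ, hYZ⟩ := hR.adj_nn x y hx hy hxy
        have hs : ∀ D, N D → (X ⊂ D ↔ Y ⊂ D) := by
          intro D hD
          constructor
          · intro h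
            exact lt_of_lt_of_le hYZ.2.2.1 (hXZ.2.2.2 D hD h)
          · intro h
            exact lt_of_lt_of_le hXZ.2.2.1 (hYZ.2.2.2 D hD h)
        have hn : (nag c0 H).gr.Adj x y := ⟨hx, hy, hxy⟩
        rcases hF.comp x y hn with h | h
        · left
          rw [hR.LL_iff hN]
          exact Or.inr ⟨X, Y, Y, y, hX, Or.inr hY, Set.Subset.refl _, hY, hs, h⟩
        · right
          rw [hR.LL_iff hN]
          exact Or.inr ⟨Y, X, X, x, hY, Or.inr hX, Set.Subset.refl _, hX,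
            fun D hD => (hs D hD).symm, h⟩
end

end Pool.MP_33c730_lc.Md
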