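/-
MP_33c730_lc (helper20): the graph which describes the modular decomposition.
-/
import Pool.Agent.Lib.MP_33c730_lc.Md.Tree
import Pool.Agent.Lib.MP_33c730_lc.Md.MDefn

set_option autoImplicit false

namespace Pool.MP_33c730_lc.Md

open Ws

/-- names of the set parameters -/
abbrev PN (k : ℕ) : Type :=
  (ZMod 3 ⊕ ZMod 3) ⊕ (Fin 2 ⊕ ((Fin k ⊕ Fin k) ⊕ (Fin k × Fin k)))

section
variable {k : ℕ}

def n1 (j : ZMod 3) : PN k := .inl (.inl j)
def n2 (j : ZMod 3) : PN k := .inl (.inr j)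
def nj : PN k := .inr (.inl 0)
def np : PN k := .inr (.inl 1)
def c1 (i : Fin k) : PN k := .inr (.inr (.inl (.inl i)))
def c2 (i : Fin k) : PN k := .inr (.inr (.inl (.inr i)))
def fl (a b : Fin k) : PN k := .inr (.inr (.inr (a, b)))

variable {V : Type}

/-- `v` represents `X`, according to the sets `S` -/
def rpq (G : SimpleGraph V) (S : PN k → Set V) (X : Set V) (v : V) : Prop :=
  rp (Str G) (dcq (Str G) (fun j => S (n1 j))) (dcq (Str G) (fun j => S (n2 j))) X v

/-- the element `(v, i)` stands for the set `X` -/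
def ndq (G : SimpleGraph V) (S : PN k → Set V) (i : Fin 3) (v : V) (X : Set V) : Prop :=
  (i = 1 ∧ ∀ a, a ∈ X ↔ a = v) ∨ (i = 2 ∧ rpq G S X v)

/-- the class of the element `(v, i)` is `a` -/
def clq (S : PN k → Set V) (i : Fin 3) (v : V) (a : Fin k) : Prop :=
  (i = 1 ∧ v ∈ S (c1 a)) ∨ (i = 2 ∧ v ∈ S (c2 a))

/-- the edges between the elements `(v, i)` and `(w, j)` -/
def edq (G : SimpleGraph V) (S : PN k → Set V) (i j : Fin 3) (v w : V) : Prop :=
  (i = 0 ∧ ∃ X, ndq G S j w X ∧ v ∈ X) ∨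
  ((¬ i = 0 ∧ ¬ j = 0) ∧ ∃ X Y Z, ndq G S i v X ∧ ndq G S j w Y ∧ ch (Str G) X Z ∧
    ch (Str G) Y Z ∧ ¬ X ⊆ Y ∧ ∃ r, rpq G S Z r ∧ r ∈ S np ∧
      (adS G X Y ↔ ¬ ∃ a b, clq S i v a ∧ clq S j w b ∧ r ∈ S (fl a b)))

variable {C α β : Type}

theorem def_ndq (i : Fin 3) (x : α) (X : β) (e : PN k → β) :
    Def C α β fun G v S => ndq G.gr (fun p => S (e p)) i (v x) (S X) :=
  Def.congr (Def.or (Def.and (Def.const (i = 1)) (Def.all (Def.iff (Def.mem none X)
    (Def.eq none (some x))))) (Def.and (Def.const (i = 2)) (def_rp (fun j => e (n1 j))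
      (fun j => e (n2 j)) X x))) (fun _ _ _ => Iff.rfl)

theorem def_clq (i : Fin 3) (x : α) (a : Fin k) (e : PN k → β) :
    Def C α β fun _ v S => clq (fun p => S (e p)) i (v x) a :=
  Def.congr (Def.or (Def.and (Def.const (i = 1)) (Def.mem x (e (c1 a))))
    (Def.and (Def.const (i = 2)) (Def.mem x (e (c2 a))))) (fun _ _ _ => Iff.rfl)

theorem def_adS (X Y : β) : Def C α β fun G _ S => adS G.gr (S X) (S Y) :=
  Def.congr (Def.ex (Def.and (Def.mem none X) (Def.ex (Def.and (Def.mem none Y)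
    (Def.adj (some none) none))))) (fun _ _ _ => Iff.rfl)

theorem def_edq (i j : Fin 3) (x y : α) :
    Def C α (PN k) fun G v S => edq G.gr S i j (v x) (v y) :=
  Def.congr (Def.or
    (Def.and (Def.const (i = 0)) (Def.exS (Def.and (def_ndq j y none some) (Def.mem x none))))
    (Def.and (Def.const (¬ i = 0 ∧ ¬ j = 0)) (Def.exS (Def.exS (Def.exS (Def.and
      (def_ndq i x (some (some none)) (fun p => some (some (some p)))) (Def.and
      (def_ndq j y (some none) (fun p => some (some (some p)))) (Def.and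
      (def_ch (some (some none)) none) (Def.and (def_ch (some none) none) (Def.and
      (Def.not (def_sub (some (some none)) (some none))) (Def.ex (Def.and
      (def_rp (fun j => some (some (some (n1 j)))) (fun j => some (some (some (n2 j)))) none none)
      (Def.and (Def.mem none (some (some (some np)))) (Def.iff
      (def_adS (some (some none)) (some none)) (Def.not (Def.exFin fun a : Fin k =>
        Def.exFin fun b : Fin k => Def.and
          (def_clq i (some x) a (fun p => some (some (some p)))) (Def.and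
          (def_clq j (some y) b (fun p => some (some (some p))))
          (Def.mem none (some (some (some (fl a b)))))))))))))))))))))) 
    (fun _ _ _ => Iff.rfl)
end

/-! ### good parameters -/

section
variable {V : Type} {G : SimpleGraph V} {k t : ℕ}

/-- join nodes -/
def Jn (G : SimpleGraph V) (x : Set V) : Prop :=
  ∀ y z, ch (Str G) y x → ch (Str G) z x → y ≠ z → adS G y z

/-- union nodes -/
def Un (G : SimpleGraph V) (x : Set V) : Prop :=
  ∀ y z, ch (Str G) y x → ch (Str G) z x → y ≠ z → ¬ adS G y z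

/-- the sets are chosen well. -/
structure Good (G : SimpleGraph V) (k t : ℕ) (S : PN k → Set V) (R : Set V → V → Prop)
    (P : Set V → Prop) (c : Set V → Set V → Fin k → Prop) (F : Set V → Fin k → Fin k → Prop) :
    Prop where
  rp : ∀ X v, rpq G S X v ↔ R X v
  str : ∀ X v, R X v → Str G X
  nt : ∀ X v, R X v → X.Nontrivial
  ex : ∀ X, Str G X → X.Nontrivial → ∃ v, R X v
  uni : ∀ X v v', R X v → R X v' → v = v'
  inj : ∀ X X' v, R X v → R X' v → X = X'
  tri : ∀ X, Str G X → Un G X ∨ Jn G X ∨ P X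
  pj : ∀ X, P X → ¬ Jn G X
  sj : ∀ X v, R X v → (v ∈ S nj ↔ Jn G X)
  sp : ∀ X v, R X v → (v ∈ S np ↔ P X)
  sc1 : ∀ Z v, P Z → ch (Str G) {v} Z → ∀ a, (v ∈ S (c1 a) ↔ c Z {v} a)
  sc2 : ∀ X Z v, P Z → ch (Str G) X Z → R X v → ∀ a, (v ∈ S (c2 a) ↔ c Z X a)
  sf : ∀ Z v, P Z → R Z v → ∀ a b, (v ∈ S (fl a b) ↔ F Z a b)
  symm : ∀ Z, P Z → ∀ a b, F Z a b → F Z b a
  ktt : ∀ Z, P Z → ¬ ∃ f g : Fin t → Set V, Function.Injective f ∧ Function.Injective g ∧
    (∀ i, ch (Str G) (f i) Z) ∧ (∀ i, ch (Str G) (g i) Z) ∧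
      ∀ i j, f i ≠ g j ∧ (adS G (f i) (g j) ↔ ¬ ∃ a b, c Z (f i) a ∧ c Z (g j) b ∧ F Z a b)

theorem exists_good [Finite V] [Nonempty V] (hG : PrimeFlip k t G) :
    ∃ S R P c F, Good G k t S R P c F := by
  classical
  have hN := lam_str G
  -- distinguished children
  have hex : ∀ x, ∃ y z : Set V, Str G x → x.Nontrivial →
      ch (Str G) y x ∧ ch (Str G) z x ∧ z ≠ y := by
    intro x
    by_cases hx : Str G x
    · by_cases hn : x.Nontrivial
      · obtain ⟨a, ha⟩ := hx.1
        obtain ⟨y, z, hy, hz, -, hzy⟩ := two_ch hN hx hn a ha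
        exact ⟨y, z, fun _ _ => ⟨hy, hz, hzy⟩⟩
      · exact ⟨x, x, fun _ h => absurd h hn⟩
    · exact ⟨x, x, fun h => absurd h hx⟩
  choose f g hfg using hex
  have mkLab : ∀ f : Set V → Set V, (∀ x, Str G x → x.Nontrivial → ch (Str G) (f x) x) →
      ∃ l, Lab (Str G) f l := by
    intro f hf
    obtain ⟨l, hl⟩ := exists_lab hN f
    exact ⟨l, hf, fun x hx hn => (hl _ _ (hf x hx hn)).1 rfl, fun y x h h' => (hl y x h).2 h'⟩
  have hf := fun x hx hn => (hfg x hx hn).1
  have hg := fun x hx hn => (hfg x hx hn).2.1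
  obtain ⟨l1, hl1⟩ := mkLab f hf
  obtain ⟨l2, hl2⟩ := mkLab g hg
  let R : Set V → V → Prop := rp (Str G) (fun w x => w = f x) (fun w x => w = g x)
  let P : Set V → Prop := fun x => Str G x ∧ Prm G x ∧ ¬ Un G x ∧ ¬ Jn G x
  have hflip : ∀ x, ∃ (c : Set V → Fin k → Prop) (F : Fin k → Fin k → Prop), P x →
      (∀ i j, F i j → F j i) ∧
      ¬ ∃ f g : Fin t → Set V, Function.Injective f ∧ Function.Injective g ∧
        (∀ i, ch (Str G) (f i) x) ∧ (∀ i, ch (Str G) (g i) x) ∧
        ∀ i j, f i ≠ g j ∧ (adS G (f i) (g j) ↔ ¬ ∃ a b, c (f i) a ∧ c (g j) b ∧ F a b) := by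
    intro x
    by_cases hx : P x
    · obtain ⟨c, F, h1, h2⟩ := flip_node hG hx.1 hx.2.1 hx.2.2.1 hx.2.2.2
      refine ⟨fun y a => c y = a, F, fun _ => ⟨h1, ?_⟩⟩
      rintro ⟨f, g, h3, h4, h5, h6, h7⟩
      refine h2 ⟨f, g, h3, h4, h5, h6, fun i j => ⟨(h7 i j).1, (h7 i j).2.trans ?_⟩⟩
      refine not_congr ⟨?_, fun h => ⟨_, _, rfl, rfl, h⟩⟩
      rintro ⟨a, b, rfl, rfl, h⟩
      exact h
    · exact ⟨fun _ _ => False, fun _ _ => True, fun h => absurd h hx⟩
  choose c F hcF using hflip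
  let S : PN k → Set V := Sum.elim (Sum.elim (cod (Str G) l1) (cod (Str G) l2))
    (Sum.elim (fun i => if i = 0 then {v | ∃ X, R X v ∧ Jn G X} else {v | ∃ X, R X v ∧ P X})
      (Sum.elim (Sum.elim (fun a => {v | ∃ Z, P Z ∧ ch (Str G) {v} Z ∧ c Z {v} a})
        (fun a => {v | ∃ X Z, R X v ∧ P Z ∧ ch (Str G) X Z ∧ c Z X a}))
        (fun p => {v | ∃ Z, P Z ∧ R Z v ∧ F Z p.1 p.2})))
  have e1 : (fun j => S (n1 j)) = cod (Str G) l1 := rfl
  have e2 : (fun j => S (n2 j)) = cod (Str G) l2 := rfl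
  have hch : ∀ X v, R X v → ∃ z, ch (Str G) z X := fun X v ⟨z, _, h, _⟩ => ⟨z, h⟩
  have hinj : ∀ X X' v, R X v → R X' v → X = X' := fun X X' v h h' =>
    rp_inj hN (fun x hx hn => (hfg x hx hn).2.2) h h'
  have hrp : ∀ X v, rpq G S X v ↔ R X v := by
    intro X v
    unfold rpq
    rw [e1, e2]
    constructor
    · rintro ⟨z, h1, h2, h3, h4⟩
      refine ⟨z, ((dcq_iff hN hl2).1 h1).2, h2, h3, ?_⟩
      intro w x hw hv hx
      exact ((dcq_iff hN hl1).1 (h4 w x hw hv hx)).2
    · rintro ⟨z, h1, h2, h3, h4⟩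
      refine ⟨z, (dcq_iff hN hl2).2 ⟨h2, h1⟩, h2, h3, ?_⟩
      intro w x hw hv hx
      exact (dcq_iff hN hl1).2 ⟨hw, h4 w x hw hv hx⟩
  refine ⟨S, R, P, c, F, ?_⟩
  exact
    { rp := hrp
      str := fun X v h => by
        obtain ⟨z, hz⟩ := hch X v h
        exact hz.2.1
      nt := fun X v h => by
        obtain ⟨z, hz⟩ := hch X v h
        exact ch_nontrivial hN hz
      ex := fun X h h' => rp_exists hN hf hg h h'
      uni := fun X v v' h h' => rp_unique hN h h'
      inj := hinj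
      tri := by
        intro X hX
        by_cases h1 : Un G X
        · exact Or.inl h1
        · by_cases h2 : Jn G X
          · exact Or.inr (Or.inl h2)
          · rcases tri hX with h3 | h3 | h3
            · exact absurd h3 h1
            · exact absurd h3 h2
            · exact Or.inr (Or.inr ⟨hX, h3, h1, h2⟩)
      pj := fun X h => h.2.2.2
      sj := by
        intro X v h
        constructor
        · rintro ⟨X', h1, h2⟩
          rw [hinj X X' v h h1]
          exact h2
        · intro h1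
          exact ⟨X, h, h1⟩
      sp := by
        intro X v h
        constructor
        · rintro ⟨X', h1, h2⟩
          rw [hinj X X' v h h1]
          exact h2
        · intro h1
          exact ⟨X, h, h1⟩
      sc1 := by
        intro Z v hP hv a
        constructor
        · rintro ⟨Z', h1, h2, h3⟩
          rw [ch_unique_par hv h2]
          exact h3
        · intro h1
          exact ⟨Z, hP, hv, h1⟩
      sc2 := by
        intro X Z v hP hv hR a
        constructor
        · rintro ⟨X', Z', h1, h2, h3, h4⟩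
          have h5 := hinj X X' v hR h1
          subst h5
          rw [ch_unique_par hv h3]
          exact h4
        · intro h1
          exact ⟨X, Z, hR, hP, hv, h1⟩
      sf := by
        intro Z v hP hR a b
        constructor
        · rintro ⟨Z', h1, h2, h3⟩
          rw [hinj Z Z' v hR h2]
          exact h3
        · intro h1
          exact ⟨Z, hP, hR, h1⟩
      symm := fun Z hP => (hcF Z hP).1
      ktt := fun Z hP => (hcF Z hP).2 }
end

end Pool.MP_33c730_lc.Md
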