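/-
MP_33c730_lc (helper20): order-invariant first-order logic and MSO on the substitution closure of
the flips of graphs without `K_{t,t}`.
-/
import Pool.Agent.Lib.MP_33c730_lc.Md.HStr

set_option autoImplicit false

namespace Pool.MP_33c730_lc.Md

open Ws

section
variable {V : Type} [Finite V] [Nonempty V] {G : SimpleGraph V} {k t : ℕ} {S : PN k → Set V}
  {R : Set V → V → Prop} {P : Set V → Prop} {c : Set V → Set V → Fin k → Prop}
  {F : Set V → Fin k → Fin k → Prop}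

theorem Good.nd_N (hS : Good G k t S R P c F) {i : Fin 3} {v : V} {X : Set V}
    (h : ndq G S i v X) : Str G X := by
  rcases h with ⟨-, h⟩ | ⟨-, h⟩
  · have h1 : X = {v} := by
      ext a
      exact h a
    rw [h1]
    exact (lam_str G).sg v
  · exact hS.str X v ((hS.rp X v).1 h)

theorem Good.nd_fun (hS : Good G k t S R P c F) {i : Fin 3} {v : V} {X X' : Set V}
    (h : ndq G S i v X) (h' : ndq G S i v X') : X = X' := by
  rcases h with ⟨h1, h2⟩ | ⟨h1, h2⟩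
  · rcases h' with ⟨h3, h4⟩ | ⟨h3, h4⟩
    · ext a
      rw [h2, h4]
    · rw [h1] at h3
      exact absurd h3 (by decide)
  · rcases h' with ⟨h3, h4⟩ | ⟨h3, h4⟩
    · rw [h1] at h3
      exact absurd h3 (by decide)
    · exact hS.inj X X' v ((hS.rp X v).1 h2) ((hS.rp X' v).1 h4)

theorem Good.nd_triv (hS : Good G k t S R P c F) {v w : V} {X : Set V}
    (h : ∀ a, a ∈ X ↔ a = v) (h' : rpq G S X w) : False := by
  have h1 : X = {v} := by
    ext a
    exact h a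
  have h2 := hS.nt X w ((hS.rp X w).1 h')
  rw [h1] at h2
  exact Set.not_nontrivial_singleton h2

theorem Good.nd_inj (hS : Good G k t S R P c F) {i j : Fin 3} {v w : V} {X : Set V}
    (h : ndq G S i v X) (h' : ndq G S j w X) : v = w ∧ i = j := by
  rcases h with ⟨h1, h2⟩ | ⟨h1, h2⟩
  · rcases h' with ⟨h3, h4⟩ | ⟨h3, h4⟩
    · exact ⟨(h4 v).1 ((h2 v).2 rfl), by rw [h1, h3]⟩
    · exact (hS.nd_triv h2 h4).elim
  · rcases h' with ⟨h3, h4⟩ | ⟨h3, h4⟩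
    · exact (hS.nd_triv h4 h2).elim
    · exact ⟨hS.uni X v w ((hS.rp X v).1 h2) ((hS.rp X w).1 h4), by rw [h1, h3]⟩

theorem Good.nd_ex (hS : Good G k t S R P c F) {X : Set V} (h : Str G X) :
    ∃ v i, ndq G S i v X := by
  rcases nontrivial_or h.1 with h1 | ⟨v, rfl⟩
  · obtain ⟨v, hv⟩ := hS.ex X h h1
    exact ⟨v, 2, Or.inr ⟨rfl, (hS.rp X v).2 hv⟩⟩
  · exact ⟨v, 1, Or.inl ⟨rfl, fun a => Iff.rfl⟩⟩

theorem Good.cl_iff (hS : Good G k t S R P c F) {i : Fin 3} {v : V} {X Z : Set V} (hP : P Z)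
    (hX : ch (Str G) X Z) (h : ndq G S i v X) (a : Fin k) : clq S i v a ↔ c Z X a := by
  rcases h with ⟨h1, h2⟩ | ⟨h1, h2⟩
  · have h3 : X = {v} := by
      ext a
      exact h2 a
    subst h3
    rw [← hS.sc1 Z v hP hX a]
    subst h1
    constructor
    · rintro (⟨-, h⟩ | ⟨h, -⟩)
      · exact h
      · exact absurd h (by decide)
    · intro h
      exact Or.inl ⟨rfl, h⟩
  · rw [← hS.sc2 X Z v hP hX ((hS.rp X v).1 h2) a]
    subst h1
    constructor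
    · rintro (⟨h, -⟩ | ⟨-, h⟩)
      · exact absurd h (by decide)
      · exact h
    · intro h
      exact Or.inr ⟨rfl, h⟩

/-- adjacency of nodes in the graph which describes the decomposition -/
def NN (G : SimpleGraph V) (P : Set V → Prop) (c : Set V → Set V → Fin k → Prop)
    (F : Set V → Fin k → Fin k → Prop) (X Y Z : Set V) : Prop :=
  ch (Str G) X Z ∧ ch (Str G) Y Z ∧ X ≠ Y ∧ P Z ∧
    (adS G X Y ↔ ¬ ∃ a b, c Z X a ∧ c Z Y b ∧ F Z a b)

theorem adS_comm {X Y : Set V} : adS G X Y ↔ adS G Y X := by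
  constructor
  · rintro ⟨a, ha, b, hb, h⟩
    exact ⟨b, hb, a, ha, h.symm⟩
  · rintro ⟨a, ha, b, hb, h⟩
    exact ⟨b, hb, a, ha, h.symm⟩

theorem Good.nn_symm (hS : Good G k t S R P c F) {X Y Z : Set V} (h : NN G P c F X Y Z) :
    NN G P c F Y X Z := by
  obtain ⟨h1, h2, h3, h4, h5⟩ := h
  refine ⟨h2, h1, h3.symm, h4, ?_⟩
  rw [adS_comm, h5]
  refine not_congr ⟨?_, ?_⟩
  · rintro ⟨a, b, h6, h7, h8⟩
    exact ⟨b, a, h7, h6, hS.symm Z h4 a b h8⟩
  · rintro ⟨a, b, h6, h7, h8⟩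
    exact ⟨b, a, h7, h6, hS.symm Z h4 a b h8⟩

theorem Good.q_iff (hS : Good G k t S R P c F) {i j : Fin 3} {v w r : V} {X Y Z : Set V}
    (hP : P Z) (hX : ch (Str G) X Z) (hY : ch (Str G) Y Z) (h : ndq G S i v X)
    (h' : ndq G S j w Y) (hr : R Z r) :
    (∃ a b, clq S i v a ∧ clq S j w b ∧ r ∈ S (fl a b)) ↔
      ∃ a b, c Z X a ∧ c Z Y b ∧ F Z a b := by
  refine exists_congr fun a => exists_congr fun b => ?_
  rw [hS.cl_iff hP hX h, hS.cl_iff hP hY h', hS.sf Z r hP hr]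

theorem Good.edq_nn (hS : Good G k t S R P c F) {i j : Fin 3} {v w : V} (hi : i ≠ 0)
    (hj : j ≠ 0) : edq G S i j v w ↔ ∃ X Y Z, ndq G S i v X ∧ ndq G S j w Y ∧
      NN G P c F X Y Z := by
  have hN := lam_str G
  constructor
  · rintro (⟨h, -⟩ | ⟨-, X, Y, Z, h1, h2, h3, h4, h5, r, h6, h7, h8⟩)
    · exact absurd h hi
    · have h9 := (hS.rp Z r).1 h6
      have h10 := (hS.sp Z r h9).1 h7
      refine ⟨X, Y, Z, h1, h2, h3, h4, fun h => h5 (h ▸ Set.Subset.refl _), h10, ?_⟩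
      rw [h8, hS.q_iff h10 h3 h4 h1 h2 h9]
  · rintro ⟨X, Y, Z, h1, h2, h3, h4, h5, h6, h7⟩
    obtain ⟨r, hr⟩ := hS.ex Z h3.2.1 (ch_nontrivial hN h3)
    refine Or.inr ⟨⟨hi, hj⟩, X, Y, Z, h1, h2, h3, h4, ?_, r, (hS.rp Z r).2 hr,
      (hS.sp Z r hr).2 h6, ?_⟩
    · intro h8
      obtain ⟨a, ha⟩ := h3.1.1
      exact h5 (ch_unique_mem hN h3 h4 ha (h8 ha))
    · rw [h7, hS.q_iff h6 h3 h4 h1 h2 hr]

variable {C : Type} {Γ : CG C V} {η : Fin 3 → Fin 3 → MSO C (Fin 2) (PN k)}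

theorem Good.rep (hS : Good Γ.gr k t S R P c F)
    (hη : ∀ i j (v w : V), (η i j).Sat Γ ![v, w] S ↔ edq Γ.gr S i j v w) :
    Rep (.inr (.inr 0) : C ⊕ (PN k ⊕ Fin 3)) (Interp η Γ S) (Str Γ.gr) (fun v => (v, 0))
      (fun u X => ndq Γ.gr S u.2 u.1 X) ∧
    ∀ p q : V × Fin 3, p.2 ≠ 0 → q.2 ≠ 0 → ((Interp η Γ S).gr.Adj p q ↔
      ∃ X Y Z, ndq Γ.gr S p.2 p.1 X ∧ ndq Γ.gr S q.2 q.1 Y ∧ NN Γ.gr P c F X Y Z) := by
  have hN := lam_str Γ.gr
  have hadj : ∀ p q : V × Fin 3, (Interp η Γ S).gr.Adj p q ↔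
      p ≠ q ∧ (edq Γ.gr S p.2 q.2 p.1 q.1 ∨ edq Γ.gr S q.2 p.2 q.1 p.1) := by
    intro p q
    change (p ≠ q ∧ ((η p.2 q.2).Sat Γ ![p.1, q.1] S ∨ (η q.2 p.2).Sat Γ ![q.1, p.1] S)) ↔ _
    rw [hη, hη]
  have hnn : ∀ p q : V × Fin 3, p.2 ≠ 0 → q.2 ≠ 0 → ((Interp η Γ S).gr.Adj p q ↔
      ∃ X Y Z, ndq Γ.gr S p.2 p.1 X ∧ ndq Γ.gr S q.2 q.1 Y ∧ NN Γ.gr P c F X Y Z) := by
    intro p q hp hq
    rw [hadj, hS.edq_nn hp hq, hS.edq_nn hq hp]
    constructor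
    · rintro ⟨-, h | ⟨X, Y, Z, h1, h2, h3⟩⟩
      · exact h
      · exact ⟨Y, X, Z, h2, h1, hS.nn_symm h3⟩
    · rintro ⟨X, Y, Z, h1, h2, h3⟩
      refine ⟨?_, Or.inl ⟨X, Y, Z, h1, h2, h3⟩⟩
      rintro rfl
      exact h3.2.2.1 (hS.nd_fun h1 h2)
  refine ⟨?_, hnn⟩
  exact
    { vcol := by
        intro u
        constructor
        · intro h
          exact ⟨u.1, Prod.ext rfl h⟩
        · rintro ⟨v, rfl⟩
          rfl
      vinj := fun v w h => congrArg Prod.fst h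
      nd_not := by
        rintro ⟨v, i⟩ X h h0
        have h0' : i = 0 := h0
        subst h0'
        rcases h with ⟨h, -⟩ | ⟨h, -⟩
        · have h1 : (0 : Fin 3) = 1 := h
          exact absurd h1 (by decide)
        · have h1 : (0 : Fin 3) = 2 := h
          exact absurd h1 (by decide)
      nd_N := fun u X h => hS.nd_N h
      nd_fun := fun u X X' h h' => hS.nd_fun h h'
      nd_inj := fun u u' X h h' => Prod.ext (hS.nd_inj h h').1 (hS.nd_inj h h').2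
      nd_ex := by
        intro X hX
        obtain ⟨v, i, h⟩ := hS.nd_ex hX
        exact ⟨(v, i), h⟩
      adj_vn := by
        rintro v ⟨w, j⟩ hu
        have hj : ¬ j = 0 := hu
        rw [hadj]
        constructor
        · rintro ⟨-, (⟨-, h⟩ | ⟨⟨h, -⟩, -⟩) | (⟨h, -⟩ | ⟨⟨-, h⟩, -⟩)⟩
          · exact h
          · exact absurd rfl h
          · exact absurd h hj
          · exact absurd rfl h
        · intro h
          refine ⟨?_, Or.inl (Or.inl ⟨rfl, h⟩)⟩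
          intro h1
          exact hj (congrArg Prod.snd h1).symm
      adj_vv := by
        intro v w h
        rw [hadj] at h
        have key : ∀ (v w : V), ¬ edq Γ.gr S 0 0 v w := by
          rintro v w (⟨-, X, ⟨h, -⟩ | ⟨h, -⟩, -⟩ | ⟨⟨h, -⟩, -⟩)
          · exact absurd h (by decide)
          · exact absurd h (by decide)
          · exact h rfl
        rcases h.2 with h1 | h1
        · exact key _ _ h1
        · exact key _ _ h1
      adj_nn := by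
        intro u u' hu hu' h
        obtain ⟨X, Y, Z, h1, h2, h3⟩ := (hnn u u' hu hu').1 h
        exact ⟨X, Y, Z, h1, h2, h3.1, h3.2.1⟩ }

theorem Good.ktt_nag (hS : Good Γ.gr k t S R P c F)
    (hη : ∀ i j (v w : V), (η i j).Sat Γ ![v, w] S ↔ edq Γ.gr S i j v w) :
    Ktt (t + 1) (nag (.inr (.inr 0) : C ⊕ (PN k ⊕ Fin 3)) (Interp η Γ S)).gr := by
  obtain ⟨-, hnn⟩ := hS.rep hη
  rintro ⟨f, g, hf, hg, hfg⟩
  have h1 : ∀ i j, ∃ X Y Z, ndq Γ.gr S (f i).2 (f i).1 X ∧ ndq Γ.gr S (g j).2 (g j).1 Y ∧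
      NN Γ.gr P c F X Y Z := by
    intro i j
    obtain ⟨h2, h3, h4⟩ := hfg i j
    exact (hnn _ _ h2 h3).1 h4
  obtain ⟨X0, Y0, Z, hX0, hY0, h0⟩ := h1 0 0
  have hX : ∀ i, ∃ X, ndq Γ.gr S (f i).2 (f i).1 X ∧ ch (Str Γ.gr) X Z := by
    intro i
    obtain ⟨X, Y, Z', h2, h3, h4⟩ := h1 i 0
    have h5 := hS.nd_fun h3 hY0
    rw [h5] at h4
    have h6 := ch_unique_par h4.2.1 h0.2.1
    rw [h6] at h4
    exact ⟨X, h2, h4.1⟩
  have hY : ∀ j, ∃ Y, ndq Γ.gr S (g j).2 (g j).1 Y ∧ ch (Str Γ.gr) Y Z := by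
    intro j
    obtain ⟨X, Y, Z', h2, h3, h4⟩ := h1 0 j
    have h5 := hS.nd_fun h2 hX0
    rw [h5] at h4
    have h6 := ch_unique_par h4.1 h0.1
    rw [h6] at h4
    exact ⟨Y, h3, h4.2.1⟩
  choose X hX1 hX2 using hX
  choose Y hY1 hY2 using hY
  have hXi : Function.Injective X := by
    intro i j hij
    have h2 := hX1 j
    rw [← hij] at h2
    have h3 := hS.nd_inj (hX1 i) h2
    exact hf (Prod.ext h3.1 h3.2)
  have hYi : Function.Injective Y := by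
    intro i j hij
    have h2 := hY1 j
    rw [← hij] at h2
    have h3 := hS.nd_inj (hY1 i) h2
    exact hg (Prod.ext h3.1 h3.2)
  refine hS.ktt Z h0.2.2.2.1 ⟨fun i => X i.castSucc, fun i => Y i.castSucc, ?_, ?_,
    fun i => hX2 _, fun i => hY2 _, ?_⟩
  · intro i j hij
    exact Fin.castSucc_injective _ (hXi hij)
  · intro i j hij
    exact Fin.castSucc_injective _ (hYi hij)
  · intro i j
    obtain ⟨X', Y', Z', h2, h3, h4⟩ := h1 i.castSucc j.castSucc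
    rw [hS.nd_fun h2 (hX1 _), hS.nd_fun h3 (hY1 _)] at h4
    have h5 := ch_unique_par h4.1 (hX2 _)
    rw [h5] at h4
    exact ⟨h4.2.2.1, h4.2.2.2.2⟩
end

/-- lowest common ancestor -/
theorem exists_lca {V : Type} [Finite V] {N : Set V → Prop} (hN : Lam N) {u v : V}
    (huv : u ≠ v) : ∃ X Y Z, ch N X Z ∧ ch N Y Z ∧ u ∈ X ∧ v ∈ Y ∧ X ≠ Y := by
  obtain ⟨Z, ⟨hZ, hu, hv⟩, hmin⟩ := Set.exists_min_image {Z | N Z ∧ u ∈ Z ∧ v ∈ Z} Set.ncard
    (Set.toFinite _) ⟨Set.univ, hN.un, Set.mem_univ _, Set.mem_univ _⟩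
  have h1 : Z ≠ {u} := by
    rintro rfl
    exact huv (Set.mem_singleton_iff.1 hv).symm
  have h2 : Z ≠ {v} := by
    rintro rfl
    exact huv (Set.mem_singleton_iff.1 hu)
  obtain ⟨X, hX, huX⟩ := exists_ch hN hZ hu h1
  obtain ⟨Y, hY, hvY⟩ := exists_ch hN hZ hv h2
  refine ⟨X, Y, Z, hX, hY, huX, hvY, ?_⟩
  rintro rfl
  have h3 := hmin X ⟨hX.1, huX, hvY⟩
  have h4 : X.ncard < Z.ncard := Set.ncard_lt_ncard hX.2.2.1 (Set.toFinite _)
  omega

/-- the class of a node, by colours -/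
def clF {C U : Type} {k : ℕ} (H : CG (C ⊕ (PN k ⊕ Fin 3)) U) (a : U) (i : Fin k) : Prop :=
  (H.col (.inr (.inr 1)) a ∧ H.col (.inr (.inl (c1 i))) a) ∨
    (H.col (.inr (.inr 2)) a ∧ H.col (.inr (.inl (c2 i))) a)

/-- the adjacency of the base vertices -/
def tht {C U : Type} {k : ℕ} (H : CG (C ⊕ (PN k ⊕ Fin 3)) U) (x y : U) : Prop :=
  ∃ a b c, mm (.inr (.inr 0)) H x a ∧ mm (.inr (.inr 0)) H y b ∧ ¬ a = b ∧
    prq (.inr (.inr 0)) H a c ∧ prq (.inr (.inr 0)) H b c ∧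
    (H.col (.inr (.inl nj)) c ∨ (H.col (.inr (.inl np)) c ∧ (H.gr.Adj a b ↔
      ¬ ∃ i j, clF H a i ∧ clF H b j ∧ H.col (.inr (.inl (fl i j))) c)))

theorem defF_tht {C : Type} {k : ℕ} :
    DefF (C ⊕ (PN k ⊕ Fin 3)) (Fin 2) fun H v => tht H (v 0) (v 1) := by
  have hcl : ∀ (i : Fin k) (x : Option (Option (Option (Fin 2)))),
      DefF (C ⊕ (PN k ⊕ Fin 3)) (Option (Option (Option (Fin 2)))) fun H v =>
        clF H (v x) i := by
    intro i x
    exact DefF.congr (DefF.or (DefF.and (DefF.col _ x) (DefF.col _ x))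
      (DefF.and (DefF.col _ x) (DefF.col _ x))) (fun _ _ => Iff.rfl)
  refine DefF.congr (DefF.ex (DefF.ex (DefF.ex (DefF.and
    (defF_mm (.inr (.inr 0)) (some (some (some 0))) (some (some none)))
    (DefF.and (defF_mm (.inr (.inr 0)) (some (some (some 1))) (some none))
    (DefF.and (DefF.not (DefF.eq (some (some none)) (some none)))
    (DefF.and (defF_prq (.inr (.inr 0)) (some (some none)) none)
    (DefF.and (defF_prq (.inr (.inr 0)) (some none) none)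
    (DefF.or (DefF.col (.inr (.inl nj)) none) (DefF.and (DefF.col (.inr (.inl np)) none)
    (DefF.iff (DefF.adj (some (some none)) (some none)) (DefF.not
    (DefF.exFin none fun i : Fin k => DefF.exFin none fun j : Fin k =>
      DefF.and (hcl i (some (some none))) (DefF.and (hcl j (some none))
        (DefF.col (.inr (.inl (fl i j))) none))))))))))))))) ?_
  intro U H v
  exact Iff.rfl

theorem tht_iff {C V : Type} [Finite V] [Nonempty V] {Γ : CG C V} {k t : ℕ} {S : PN k → Set V}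
    {R : Set V → V → Prop} {P : Set V → Prop} {c : Set V → Set V → Fin k → Prop}
    {F : Set V → Fin k → Fin k → Prop} {η : Fin 3 → Fin 3 → MSO C (Fin 2) (PN k)}
    (hS : Good Γ.gr k t S R P c F)
    (hη : ∀ i j (v w : V), (η i j).Sat Γ ![v, w] S ↔ edq Γ.gr S i j v w) (u v : V) :
    tht (Interp η Γ S) (u, 0) (v, 0) ↔ Γ.gr.Adj u v := by
  have hN := lam_str Γ.gr
  obtain ⟨hR, hnn⟩ := hS.rep hη
  -- an element which stands for an internal node
  have hint : ∀ (p : V × Fin 3) (Z : Set V), ndq Γ.gr S p.2 p.1 Z → Z.Nontrivial →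
      R Z p.1 := by
    rintro p Z (⟨-, h⟩ | ⟨-, h⟩) hZ
    · have h1 : Z = {p.1} := by
        ext a
        exact h a
      rw [h1] at hZ
      exact absurd hZ Set.not_nontrivial_singleton
    · exact (hS.rp Z p.1).1 h
  have hadj : ∀ (p q r : V × Fin 3) (X Y Z : Set V), ndq Γ.gr S p.2 p.1 X →
      ndq Γ.gr S q.2 q.1 Y → ndq Γ.gr S r.2 r.1 Z → ch (Str Γ.gr) X Z → ch (Str Γ.gr) Y Z →
      X ≠ Y → P Z → (((Interp η Γ S).gr.Adj p q ↔
      ¬ ∃ i j, clF (Interp η Γ S) p i ∧ clF (Interp η Γ S) q j ∧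
        (Interp η Γ S).col (.inr (.inl (fl i j))) r) ↔ adS Γ.gr X Y) := by
    intro p q r X Y Z hX hY hZ hXZ hYZ hXY hP
    have h1 : (∃ i j, clF (Interp η Γ S) p i ∧ clF (Interp η Γ S) q j ∧
        (Interp η Γ S).col (.inr (.inl (fl i j))) r) ↔
        ∃ a b, c Z X a ∧ c Z Y b ∧ F Z a b :=
      hS.q_iff hP hXZ hYZ hX hY (hint r Z hZ (ch_nontrivial hN hXZ))
    have h2 : (Interp η Γ S).gr.Adj p q ↔
        (adS Γ.gr X Y ↔ ¬ ∃ a b, c Z X a ∧ c Z Y b ∧ F Z a b) := by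
      rw [hnn p q (hR.nd_not _ _ hX) (hR.nd_not _ _ hY)]
      constructor
      · rintro ⟨X', Y', Z', h3, h4, h5⟩
        rw [hS.nd_fun h3 hX, hS.nd_fun h4 hY] at h5
        rw [ch_unique_par h5.1 hXZ] at h5
        exact h5.2.2.2.2
      · intro h3
        exact ⟨X, Y, Z, hX, hY, hXZ, hYZ, hXY, hP, h3⟩
    rw [h1, h2]
    generalize (∃ a b, c Z X a ∧ c Z Y b ∧ F Z a b) = q
    generalize adS Γ.gr X Y = A
    by_cases hq : q <;> by_cases hA : A <;> simp [hq, hA]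
  constructor
  · rintro ⟨a, b, r, ha, hb, hab, har, hbr, h⟩
    obtain ⟨u', X, hu', hX, huX⟩ := hR.mm_iff.1 ha
    obtain ⟨v', Y, hv', hY, hvY⟩ := hR.mm_iff.1 hb
    have hu1 : u' = u := (congrArg Prod.fst hu').symm
    have hv1 : v' = v := (congrArg Prod.fst hv').symm
    subst hu1 hv1
    obtain ⟨X', Z, hX', hZ, hXZ⟩ := (hR.prq_iff hN).1 har
    obtain ⟨Y', Z', hY', hZ', hYZ⟩ := (hR.prq_iff hN).1 hbr
    have e1 : X' = X := hR.nd_fun _ _ _ hX' hX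
    have e2 : Y' = Y := hR.nd_fun _ _ _ hY' hY
    have e3 : Z' = Z := hR.nd_fun _ _ _ hZ' hZ
    subst e1 e2 e3
    have hXY : X' ≠ Y' := by
      intro h1
      subst h1
      exact hab (hR.nd_inj _ _ _ hX hY)
    have hRr := hint r Z' hZ (ch_nontrivial hN hXZ)
    rw [← adS_ch hXZ hYZ hXY huX hvY]
    rcases h with h | ⟨h, h'⟩
    · exact (hS.sj Z' r.1 hRr).1 h X' Y' hXZ hYZ hXY
    · exact (hadj a b r X' Y' Z' hX hY hZ hXZ hYZ hXY ((hS.sp Z' r.1 hRr).1 h)).1 h'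
  · intro huv
    obtain ⟨X, Y, Z, hXZ, hYZ, huX, hvY, hXY⟩ := exists_lca hN huv.ne
    obtain ⟨a, ha⟩ := hR.nd_ex X hXZ.1
    obtain ⟨b, hb⟩ := hR.nd_ex Y hYZ.1
    obtain ⟨r, hr⟩ := hR.nd_ex Z hXZ.2.1
    have hadS : adS Γ.gr X Y := (adS_ch hXZ hYZ hXY huX hvY).2 huv
    have hRr := hint r Z hr (ch_nontrivial hN hXZ)
    refine ⟨a, b, r, (hR.mm_iff' ha).2 huX, (hR.mm_iff' hb).2 hvY, ?_,
      (hR.prq_iff hN).2 ⟨X, Z, ha, hr, hXZ⟩, (hR.prq_iff hN).2 ⟨Y, Z, hb, hr, hYZ⟩, ?_⟩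
    · intro h1
      subst h1
      exact hXY (hR.nd_fun _ _ _ ha hb)
    · rcases hS.tri Z hXZ.2.1 with h1 | h1 | h1
      · exact absurd hadS (h1 X Y hXZ hYZ hXY)
      · exact Or.inl ((hS.sj Z r.1 hRr).2 h1)
      · exact Or.inr ⟨(hS.sp Z r.1 hRr).2 h1,
          (hadj a b r X Y Z ha hb hr hXZ hYZ hXY h1).2 hadS⟩

/-- **Order-invariant first-order logic is contained in MSO on the graphs all of whose prime induced
subgraphs are flips of graphs without `K_{t,t}`.** -/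
theorem main_prime (C : Type) [Finite C] (k t : ℕ) (φ : FO C Empty) (hφ : OrderInvariant φ) :
    ∃ ψ : MSO C Empty Empty, ∀ (V : Type) [Finite V] (G : CG C V), PrimeFlip k t G.gr →
      ∀ lt : V → V → Prop, IsStrictTotalOrder V lt →
        (ψ.Sat G Empty.elim Empty.elim ↔ φ.Sat G lt Empty.elim) := by
  let _ : LRel (C ⊕ (PN k ⊕ Fin (2 + 1))) := relL (.inr (.inr 0)) (t + 1)
  have hη : ∀ i j : Fin 3, ∃ η : MSO C (Fin 2) (PN k), ∀ (V : Type) (G : CG C V) (v : Fin 2 → V)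
      (S : PN k → Set V), η.Sat G v S ↔ edq G.gr S i j (v 0) (v 1) :=
    fun i j => def_edq i j 0 1
  choose η hη using hη
  obtain ⟨θ, hθ, hθ'⟩ := defF_tht (C := C) (k := k)
  obtain ⟨ψ, hψ⟩ := main_pres (k := 2) η θ hθ φ hφ
  refine ⟨ψ, fun V _ G hG lt hlt => ?_⟩
  rw [hψ V G lt hlt]
  refine ⟨fun h => h.2, fun h => ⟨?_, h⟩⟩
  rcases isEmpty_or_nonempty V with hV | hV
  · refine ⟨fun _ => ∅, ⟨fun _ => ∅, ?_⟩, fun x => hV.elim x⟩
    exact
      { refl := fun x => hV.elim x.1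
        antisymm := fun x => hV.elim x.1
        trans := fun x => hV.elim x.1
        chain := fun x => hV.elim x.1
        comp := fun x => hV.elim x.1 }
  · obtain ⟨S, R, P, c, F, hS⟩ := exists_good hG
    have hη' : ∀ i j (v w : V), (η i j).Sat G ![v, w] S ↔ edq G.gr S i j v w := by
      intro i j v w
      rw [hη]
      rfl
    refine ⟨S, ?_, ?_⟩
    · obtain ⟨W, hW⟩ := forest_leW (Nat.le_add_left 1 t) (hS.ktt_nag hη')
      exact ⟨W, (hS.rep hη').1.forest (lam_str G.gr) hW⟩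
    · intro x y
      rw [hθ', ← tht_iff hS hη' x y]
      exact Iff.rfl

end Pool.MP_33c730_lc.Md
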